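import Mathlib

namespace Pool.Agent.Work.MP_33c50c_an.BLY

/-- Cauchy-Schwarz for the defects. -/
lemma jens {ι : Type*} (S : Finset ι) (V : ℝ) (d g : ι → ℝ) (G : ℝ) (hV : 0 ≤ V)
    (hd : ∀ p ∈ S, 0 ≤ d p) (hg : ∀ p ∈ S, 0 ≤ g p) (h : ∀ p ∈ S, V ≤ d p * (2 + (3 / 5) * g p))
    (hG : ∑ p ∈ S, g p ≤ G) :
    V * (S.card : ℝ) ^ 2 ≤ (∑ p ∈ S, d p) * (2 * S.card + (3 / 5) * G) := by
  have hy : ∀ p ∈ S, 0 ≤ 2 + (3 / 5) * g p := fun p hp => by have := hg p hp; linarith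
  have h1 := Finset.sum_sq_le_sum_mul_sum_of_sq_le_mul S hd hy
    (r := fun _ => Real.sqrt V) (fun p hp => by rw [Real.sq_sqrt hV]; exact h p hp)
  rw [Finset.sum_const, nsmul_eq_mul, mul_pow, Real.sq_sqrt hV, mul_comm] at h1
  refine h1.trans ?_
  apply mul_le_mul_of_nonneg_left _ (Finset.sum_nonneg hd)
  rw [Finset.sum_add_distrib, ← Finset.mul_sum, Finset.sum_const, nsmul_eq_mul]
  linarith

lemma cubic (x R : ℝ) (h1 : 16 / 25 * x ≤ R) (h2 : R ≤ x) (hx : 0 ≤ x) :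
    7045 / 10000 * x ^ 3 ≤ (3 * x - 2 * R) * R ^ 2 := by
  have h3 : 0 ≤ R - 16 / 25 * x := by linarith
  have h4 : 0 ≤ x - R := by linarith
  have e : (3 * x - 2 * R) * R ^ 2 - (3 * x - 2 * (16 / 25 * x)) * (16 / 25 * x) ^ 2 =
      (R - 16 / 25 * x) * ((x - R) * (3 * (R + 16 / 25 * x)) +
        (R - 16 / 25 * x) * (R + 2 * (16 / 25 * x))) := by ring
  have h5 : 0 ≤ (R - 16 / 25 * x) * ((x - R) * (3 * (R + 16 / 25 * x)) +
        (R - 16 / 25 * x) * (R + 2 * (16 / 25 * x))) := by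
    have hR : 0 ≤ R := by linarith
    positivity
  have h6 : 0 ≤ x ^ 3 := by positivity
  have h7 : (3 * x - 2 * (16 / 25 * x)) * (16 / 25 * x) ^ 2 = 11008 / 15625 * x ^ 3 := by ring
  rw [h7] at e
  linarith

lemma mono (V D M M0 E : ℝ) (hV : 0 ≤ V) (hD : 0 ≤ D) (hM0 : 0 ≤ M0) (hM : M0 ≤ M) (hE : 0 ≤ E)
    (h2 : V * M ^ 2 ≤ D * (2 * M + E)) : V * M0 ^ 2 ≤ D * (2 * M0 + E) := by
  rcases eq_or_lt_of_le hM0 with h4 | h4
  · rw [← h4]
    have := mul_nonneg hD hE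
    linarith
  · have hMp : 0 < M := lt_of_lt_of_le h4 hM
    have h5 : 0 < 2 * M + E := by linarith
    have h7 : V * M ^ 2 * (2 * M0 + E) ≤ D * (2 * M + E) * (2 * M0 + E) :=
      mul_le_mul_of_nonneg_right h2 (by linarith)
    have h9 : M ^ 2 * (2 * M0 + E) - M0 ^ 2 * (2 * M + E) =
        2 * M * M0 * (M - M0) + E * ((M - M0) * (M + M0)) := by ring
    have h10 : 0 ≤ M - M0 := by linarith
    have h11 : 0 ≤ 2 * M * M0 * (M - M0) + E * ((M - M0) * (M + M0)) := by positivity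
    have h8 : M0 ^ 2 * (2 * M + E) ≤ M ^ 2 * (2 * M0 + E) := by linarith
    have h12 := mul_le_mul_of_nonneg_left h8 hV
    have h6 : V * M0 ^ 2 * (2 * M + E) ≤ D * (2 * M0 + E) * (2 * M + E) := by linarith
    exact le_of_mul_le_mul_right h6 h5

lemma xbound (V k x π : ℝ) (hV0 : 0 < V) (hV : V ≤ 1 / 5) (hk0 : 0 < k)
    (hpi1 : 3.1415 < π) (hVx : V * (3 * x) = 4 * π * k) : 209 / 10 * k ≤ x := by
  have hx0 : 0 ≤ 3 * x := by
    by_contra h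
    have h1 : V * (3 * x) < 0 := mul_neg_of_pos_of_neg hV0 (not_le.mp h)
    rw [hVx] at h1
    have : 0 < 4 * π * k := by positivity
    linarith
  have h3 : V * (3 * x) ≤ 1 / 5 * (3 * x) := mul_le_mul_of_nonneg_right hV hx0
  rw [hVx] at h3
  have h4 : 4 * (31415 / 10000) * k ≤ 4 * π * k := by
    apply mul_le_mul_of_nonneg_right _ hk0.le; linarith
  linarith

lemma tbound (V k x π T : ℝ) (hV0 : 0 < V) (hk : 1 ≤ k) (hpi1 : 3.1415 < π)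
    (hVx : V * (3 * x) = 4 * π * k) (hcon : V * T < 2 * π * k ^ 2 + k / 100) :
    T ≤ 15024 / 10000 * (x * k) := by
  have h4 : V * (15024 / 10000 * (x * k)) = 5008 / 10000 * k * (4 * π * k) := by
    rw [← hVx]; ring
  have h5 : k ≤ k ^ 2 := by nlinarith
  have h6 : 3.1415 * k ^ 2 ≤ π * k ^ 2 := mul_le_mul_of_nonneg_right (by linarith) (by positivity)
  have h8 : 0 < k ^ 2 := by nlinarith
  have h7 : 5008 / 10000 * k * (4 * π * k) = 20032 / 10000 * (π * k ^ 2) := by ring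
  have h3 : V * T < V * (15024 / 10000 * (x * k)) := by
    rw [h4, h7]; linarith
  exact (lt_of_mul_lt_mul_left h3 hV0.le).le

lemma rbound (x : ℝ) (r : ℕ) (hx20 : 209 / 10 ≤ x) (hr2 : x < ((r:ℝ) + 1) ^ 2) :
    16 / 25 * x ≤ (r:ℝ) ^ 2 := by
  have hr4 : (4:ℝ) ≤ r := by
    by_contra h
    rw [not_le] at h
    have h3 : r < 4 := by exact_mod_cast h
    have h4 : r ≤ 3 := by omega
    have h5 : (r:ℝ) ≤ 3 := by exact_mod_cast h4
    have h6 : (0:ℝ) ≤ r := Nat.cast_nonneg r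
    have h7 : ((r:ℝ) + 1) ^ 2 ≤ (3 + 1) ^ 2 := pow_le_pow_left₀ (by linarith) (by linarith) 2
    linarith
  have h8 : ((r:ℝ) + 1) ^ 2 ≤ (5 / 4 * r) ^ 2 := pow_le_pow_left₀ (by linarith) (by linarith) 2
  have h9 : (5 / 4 * (r:ℝ)) ^ 2 = 25 / 16 * (r:ℝ) ^ 2 := by ring
  linarith

lemma wbound (x k R T π : ℝ) (hx0 : 0 < x) (hk : 1 ≤ k) (hpi0 : 0 < π) (hpi2 : π < 3.1416)
    (hT : 0 ≤ T) (hT1 : T ≤ 15024 / 10000 * (x * k)) (hr1 : R ≤ x) :
    R + 6 / 5 * π ^ 2 * T ≤ 188 / 10 * (x * k) := by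
  have hπ2 : π ^ 2 ≤ 98697 / 10000 := by
    have : π ^ 2 ≤ 3.1416 ^ 2 := pow_le_pow_left₀ hpi0.le hpi2.le 2
    have h : (3.1416:ℝ) ^ 2 ≤ 98697 / 10000 := by norm_num
    linarith
  have hxk : x * 1 ≤ x * k := mul_le_mul_of_nonneg_left hk hx0.le
  have h3 : π ^ 2 * T ≤ 98697 / 10000 * (15024 / 10000 * (x * k)) :=
    mul_le_mul hπ2 hT1 hT (by norm_num)
  have h4 : 0 < x * k := by positivity
  linarith

/-- the gain beats the loss. -/
lemma gain (V k x δ R K D π : ℝ) (hV0 : 0 < V) (hk0 : 0 < k) (hK0 : 0 < K) (hpi0 : 0 < π)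
    (hVx : V * (3 * x) = 4 * π * k) (hx20 : 209 / 10 ≤ x) (hδ0 : 0 ≤ δ) (hδ1 : δ ≤ 85 / 1000)
    (hR0 : 0 ≤ R) (hr1 : R ≤ x) (hV : V ≤ 1 / 5)
    (hcub : 7045 / 10000 * x ^ 3 ≤ (3 * x - 2 * R) * R ^ 2)
    (hD2 : 2 * V * R ^ 2 * K ≤ D * (188 / 10 * (x * k)))
    (h6 : V * ((3 * x - δ - 2 * R) * D) < 4 * π ^ 2 * K * (V * δ * k + k / 100)) : False := by
  have hx0 : 0 < x := by linarith
  have h7 : V * δ * k + k / 100 ≤ 27 / 1000 * k := by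
    have : V * δ ≤ 1 / 5 * (85 / 1000) := mul_le_mul hV hδ1 hδ0 (by norm_num)
    have := mul_le_mul_of_nonneg_right this hk0.le
    linarith
  have h8 : 0 ≤ 3 * x - δ - 2 * R := by linarith
  have h9 : 70 / 100 * x ^ 3 ≤ (3 * x - δ - 2 * R) * R ^ 2 := by
    have h10 : δ * R ^ 2 ≤ 85 / 1000 * x ^ 2 :=
      mul_le_mul hδ1 (pow_le_pow_left₀ hR0 hr1 2) (by positivity) (by norm_num)
    have h11 : x ^ 2 * (209 / 10) ≤ x ^ 2 * x := mul_le_mul_of_nonneg_left hx20 (by positivity)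
    have e4 : (3 * x - δ - 2 * R) * R ^ 2 = (3 * x - 2 * R) * R ^ 2 - δ * R ^ 2 := by ring
    have h12 : 0 < x ^ 3 := by positivity
    rw [e4]; linarith
  have hxk0 : 0 < x * k := mul_pos hx0 hk0
  have h12 : V * (3 * x - δ - 2 * R) * (2 * V * R ^ 2 * K) ≤
      V * (3 * x - δ - 2 * R) * (D * (188 / 10 * (x * k))) :=
    mul_le_mul_of_nonneg_left hD2 (mul_nonneg hV0.le h8)
  have e12 : V * (3 * x - δ - 2 * R) * (D * (188 / 10 * (x * k))) =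
      V * ((3 * x - δ - 2 * R) * D) * (188 / 10 * (x * k)) := by ring
  rw [e12] at h12
  have h13 : V * ((3 * x - δ - 2 * R) * D) * (188 / 10 * (x * k)) <
      4 * π ^ 2 * K * (27 / 1000 * k) * (188 / 10 * (x * k)) := by
    apply mul_lt_mul_of_pos_right _ (by positivity)
    exact h6.trans_le (mul_le_mul_of_nonneg_left h7 (by positivity))
  have h14 : 2 * K * V ^ 2 * (70 / 100 * x ^ 3) ≤
      2 * K * V ^ 2 * ((3 * x - δ - 2 * R) * R ^ 2) :=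
    mul_le_mul_of_nonneg_left h9 (by positivity)
  have e14 : 2 * K * V ^ 2 * ((3 * x - δ - 2 * R) * R ^ 2) =
      V * (3 * x - δ - 2 * R) * (2 * V * R ^ 2 * K) := by ring
  have e6 : 2 * K * V ^ 2 * (70 / 100 * x ^ 3) =
      2 * K * (70 / 100) * x * ((V * (3 * x)) ^ 2 / 9) := by ring
  rw [e6, hVx, e14] at h14
  have e7 : 2 * K * (70 / 100) * x * ((4 * π * k) ^ 2 / 9) =
      4 * π ^ 2 * K * (56 / 90 * k) * (x * k) := by ring
  have e8 : 4 * π ^ 2 * K * (27 / 1000 * k) * (188 / 10 * (x * k)) =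
      4 * π ^ 2 * K * (5076 / 10000 * k) * (x * k) := by ring
  rw [e7] at h14
  rw [e8] at h13
  have h15 := (h14.trans h12).trans_lt h13
  have h16 : 4 * π ^ 2 * K * (5076 / 10000 * k) * (x * k) ≤
      4 * π ^ 2 * K * (56 / 90 * k) * (x * k) := by
    apply mul_le_mul_of_nonneg_right _ hxk0.le
    apply mul_le_mul_of_nonneg_left _ (by positivity)
    linarith
  exact absurd h16 (not_le.mpr h15)

/-- the final arithmetic. -/
lemma fin_arith (V k K T D M x δ π : ℝ) (r : ℕ) (hV0 : 0 < V) (hV : V ≤ 1 / 5) (hk : 1 ≤ k)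
    (hK0 : 0 < K) (hpi1 : 3.1415 < π) (hpi2 : π < 3.1416) (hδ0 : 0 ≤ δ) (hδ1 : δ ≤ 85 / 1000)
    (hT : 0 ≤ T) (hD : 0 ≤ D) (hVx : V * (3 * x) = 4 * π * k)
    (hr1 : (r:ℝ) ^ 2 ≤ x) (hr2 : x < ((r:ℝ) + 1) ^ 2)
    (hM : 4 * (r:ℝ) ^ 2 * K ≤ M)
    (h1 : -(V * (K * (π / 2) * (3 * x) ^ 2)) + (3 * x - δ - 2 * (r:ℝ) ^ 2) * D ≤
      4 * π ^ 2 * K * (T - (3 * x - δ) * k))
    (h2 : V * M ^ 2 ≤ D * (2 * M + (3 / 5) * (16 * π ^ 2 * K * T))) :
    2 * π * k ^ 2 + k / 100 ≤ V * T := by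
  by_contra hcon
  rw [not_le] at hcon
  have hpi0 : 0 < π := by linarith
  have hk0 : 0 < k := by linarith
  have hx1 := xbound V k x π hV0 hV hk0 hpi1 hVx
  have hx0 : 0 < x := by linarith
  have hx20 : 209 / 10 ≤ x := by linarith
  have hRx := rbound x r hx20 hr2
  have hR0 : 0 ≤ (r:ℝ) ^ 2 := by positivity
  generalize (r:ℝ) ^ 2 = R at *
  have hcub := cubic x R hRx hr1 hx0.le
  have hT1 := tbound V k x π T hV0 hk hpi1 hVx hcon
  have hW := wbound x k R T π hx0 hk hpi0 hpi2 hT hT1 hr1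
  have hD1 : 2 * V * R ^ 2 * K ≤ D * (R + 6 / 5 * π ^ 2 * T) := by
    have h3 := mono V D M (4 * R * K) ((3 / 5) * (16 * π ^ 2 * K * T)) hV0.le hD (by positivity) hM
      (by positivity) h2
    have h13 : V * (4 * R * K) ^ 2 = 8 * K * (2 * V * R ^ 2 * K) := by ring
    have h14 : D * (2 * (4 * R * K) + (3 / 5) * (16 * π ^ 2 * K * T)) =
        8 * K * (D * (R + 6 / 5 * π ^ 2 * T)) := by ring
    rw [h13, h14] at h3
    exact le_of_mul_le_mul_left h3 (by positivity)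
  have hD2 : 2 * V * R ^ 2 * K ≤ D * (188 / 10 * (x * k)) :=
    hD1.trans (mul_le_mul_of_nonneg_left hW hD)
  refine gain V k x δ R K D π hV0 hk0 hK0 hpi0 hVx hx20 hδ0 hδ1 hR0 hr1 hV hcub hD2 ?_
  have h5 := mul_le_mul_of_nonneg_left h1 hV0.le
  have e1 : V * (-(V * (K * (π / 2) * (3 * x) ^ 2)) + (3 * x - δ - 2 * R) * D) =
      -(K * (π / 2) * (V * (3 * x)) ^ 2) + V * ((3 * x - δ - 2 * R) * D) := by ring
  have e2 : V * (4 * π ^ 2 * K * (T - (3 * x - δ) * k)) =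
      4 * π ^ 2 * K * (V * T) - 4 * π ^ 2 * K * k * (V * (3 * x)) +
        4 * π ^ 2 * K * (V * δ * k) := by ring
  rw [e1, e2, hVx] at h5
  have h7 : 4 * π ^ 2 * K * (V * T) < 4 * π ^ 2 * K * (2 * π * k ^ 2 + k / 100) :=
    mul_lt_mul_of_pos_left hcon (by positivity)
  have e3 : 4 * π ^ 2 * K * (2 * π * k ^ 2 + k / 100) = 8 * π ^ 3 * K * k ^ 2 +
    4 * π ^ 2 * K * (k / 100) := by ring
  have e4 : K * (π / 2) * (4 * π * k) ^ 2 = 8 * π ^ 3 * K * k ^ 2 := by ring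
  have e5 : 4 * π ^ 2 * K * k * (4 * π * k) = 16 * π ^ 3 * K * k ^ 2 := by ring
  have e6 : 4 * π ^ 2 * K * (V * δ * k + k / 100) = 4 * π ^ 2 * K * (V * δ * k) +
    4 * π ^ 2 * K * (k / 100) := by ring
  rw [e3] at h7
  rw [e4, e5] at h5
  rw [e6]
  linarith

end Pool.Agent.Work.MP_33c50c_an.BLY
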