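import Mathlib

namespace Pool.Agent.Work.MP_33c50c_an.BLY

open MeasureTheory Set

/-- the truncated paraboloid. -/
noncomputable def par (s : ℝ) (q : ℝ × ℝ) : ℝ := max (s - (q.1 ^ 2 + q.2 ^ 2)) 0

lemma par_cont (s : ℝ) : Continuous (par s) := by unfold par; fun_prop

lemma par_nonneg (s : ℝ) (q : ℝ × ℝ) : 0 ≤ par s q := le_max_right _ _

lemma par_integrable (s : ℝ) : Integrable (par s) := by
  apply (par_cont s).integrable_of_hasCompactSupport
  apply HasCompactSupport.intro (K := Icc (-(|s| + 1)) (|s| + 1) ×ˢ Icc (-(|s| + 1)) (|s| + 1))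
    (isCompact_Icc.prod isCompact_Icc)
  intro q hq
  unfold par
  apply max_eq_right
  by_contra hcon
  rw [not_le] at hcon
  apply hq
  have h1 : q.1 ^ 2 < s := by nlinarith [sq_nonneg q.2]
  have h2 : q.2 ^ 2 < s := by nlinarith [sq_nonneg q.1]
  have hs : s ≤ |s| := le_abs_self s
  have hs0 : 0 ≤ |s| := abs_nonneg s
  have h3 : |q.1| ≤ |s| + 1 := by
    apply abs_le_of_sq_le_sq _ (by linarith)
    nlinarith
  have h4 : |q.2| ≤ |s| + 1 := by
    apply abs_le_of_sq_le_sq _ (by linarith)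
    nlinarith
  exact ⟨abs_le.mp h3, abs_le.mp h4⟩

lemma par_integral (s : ℝ) (hs : 0 ≤ s) : ∫ q, par s q = Real.pi * s ^ 2 / 2 := by
  rw [← integral_comp_polarCoord_symm]
  have h1 : ∀ q : ℝ × ℝ, q.1 • par s (polarCoord.symm q) = (q.1 * max (s - q.1 ^ 2) 0) * 1 := by
    intro q
    rw [polarCoord_symm_apply]
    unfold par
    have : (q.1 * Real.cos q.2) ^ 2 + (q.1 * Real.sin q.2) ^ 2 = q.1 ^ 2 := by
      have := Real.sin_sq_add_cos_sq q.2
      nlinarith
    simp only [this, smul_eq_mul, mul_one]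
  simp_rw [h1]
  rw [polarCoord_target, Measure.volume_eq_prod,
    setIntegral_prod_mul (fun r => r * max (s - r ^ 2) 0) (fun _ => (1:ℝ))]
  have h2 : ∫ _ in Ioo (-Real.pi) Real.pi, (1:ℝ) = 2 * Real.pi := by
    simp [Real.pi_pos.le]; ring
  have h3 : ∫ r in Ioi (0:ℝ), r * max (s - r ^ 2) 0 = s ^ 2 / 4 := by
    have e1 : ∫ r in Ioi (0:ℝ), r * max (s - r ^ 2) 0 =
        ∫ r in (0:ℝ)..(Real.sqrt s), r * max (s - r ^ 2) 0 := by
      rw [intervalIntegral.integral_of_le (Real.sqrt_nonneg s)]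
      apply setIntegral_eq_of_subset_of_forall_sdiff_eq_zero measurableSet_Ioi Ioc_subset_Ioi_self
      intro r hr
      have hr0 : 0 < r := hr.1
      have hr1 : Real.sqrt s < r := by
        by_contra h
        exact hr.2 ⟨hr0, not_lt.mp h⟩
      have : s < r ^ 2 := by
        rwa [Real.sqrt_lt' hr0] at hr1
      rw [max_eq_right (by linarith), mul_zero]
    rw [e1]
    have e2 : ∫ r in (0:ℝ)..(Real.sqrt s), r * max (s - r ^ 2) 0 =
        ∫ r in (0:ℝ)..(Real.sqrt s), (s * r - r ^ 3) := by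
      apply intervalIntegral.integral_congr
      intro r hr
      rw [uIcc_of_le (Real.sqrt_nonneg s)] at hr
      have : r ^ 2 ≤ s := by
        have := Real.sq_sqrt hs
        nlinarith [hr.1, hr.2]
      show r * max (s - r ^ 2) 0 = s * r - r ^ 3
      rw [max_eq_left (by linarith)]; ring
    rw [e2, intervalIntegral.integral_sub (Continuous.intervalIntegrable (by fun_prop) _ _)
      (Continuous.intervalIntegrable (by fun_prop) _ _), intervalIntegral.integral_const_mul,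
      integral_id, integral_pow]
    have h4 : Real.sqrt s ^ 2 = s := Real.sq_sqrt hs
    have h5 : Real.sqrt s ^ 4 = s ^ 2 := by
      rw [show Real.sqrt s ^ 4 = (Real.sqrt s ^ 2) ^ 2 by ring, h4]
    norm_num [h4, h5]; ring
  rw [h2, h3]; ring

/-- the cell of a lattice point. -/
noncomputable def cell (K : ℝ) (p : ℤ × ℤ) : Set (ℝ × ℝ) :=
  Ioc ((p.1:ℝ) - 1 / 2) (p.1 + 1 / 2) ×ˢ Ioc (((p.2:ℝ) - 1 / 2) / K) ((p.2 + 1 / 2) / K)

lemma cell_meas (K : ℝ) (p : ℤ × ℤ) : MeasurableSet (cell K p) :=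
  measurableSet_Ioc.prod measurableSet_Ioc

lemma int_half (a b : ℤ) (x : ℝ) (h1 : (a:ℝ) - 1 / 2 < x) (h2 : x ≤ a + 1 / 2)
    (h3 : (b:ℝ) - 1 / 2 < x) (h4 : x ≤ b + 1 / 2) : a = b := by
  have h5 : (a:ℝ) < b + 1 := by linarith
  have h6 : (b:ℝ) < a + 1 := by linarith
  have h7 : a < b + 1 := by exact_mod_cast h5
  have h8 : b < a + 1 := by exact_mod_cast h6
  omega

lemma cell_disj (K : ℝ) (hK : 0 < K) (p q : ℤ × ℤ) (hpq : p ≠ q) :
    Disjoint (cell K p) (cell K q) := by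
  rw [Set.disjoint_left]
  intro z hz hz'
  apply hpq
  obtain ⟨⟨a1, a2⟩, ⟨a3, a4⟩⟩ := hz
  obtain ⟨⟨b1, b2⟩, ⟨b3, b4⟩⟩ := hz'
  rw [div_lt_iff₀ hK] at a3 b3
  rw [le_div_iff₀ hK] at a4 b4
  exact Prod.ext (int_half _ _ z.1 a1 a2 b1 b2) (int_half _ _ (z.2 * K) a3 a4 b3 b4)

lemma cell_integrable (K : ℝ) (p : ℤ × ℤ) (f : ℝ × ℝ → ℝ) (hf : Continuous f) :
    IntegrableOn f (cell K p) := by
  have h : IntegrableOn f (Icc ((p.1:ℝ) - 1 / 2) (p.1 + 1 / 2) ×ˢ
      Icc (((p.2:ℝ) - 1 / 2) / K) ((p.2 + 1 / 2) / K)) :=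
    hf.continuousOn.integrableOn_compact (isCompact_Icc.prod isCompact_Icc)
  exact h.mono_set (prod_mono Ioc_subset_Icc_self Ioc_subset_Icc_self)

lemma cell_integral (K : ℝ) (hK : 0 < K) (p : ℤ × ℤ) (A : ℝ) :
    ∫ q in cell K p, (A - (q.1 ^ 2 + q.2 ^ 2)) =
      (1 / K) * (A - ((p.1:ℝ) ^ 2 + ((p.2:ℝ) / K) ^ 2) - (1 / 12 + 1 / (12 * K ^ 2))) := by
  unfold cell
  rw [Measure.volume_eq_prod, setIntegral_prod]
  · have hle1 : (p.1:ℝ) - 1 / 2 ≤ p.1 + 1 / 2 := by linarith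
    have hle2 : ((p.2:ℝ) - 1 / 2) / K ≤ (p.2 + 1 / 2) / K := by
      apply div_le_div_of_nonneg_right _ hK.le; linarith
    have h1 : ∀ x : ℝ, ∫ y in Ioc (((p.2:ℝ) - 1 / 2) / K) ((p.2 + 1 / 2) / K),
        (A - (x ^ 2 + y ^ 2)) =
        (A - x ^ 2) * (1 / K) - (((p.2 + 1 / 2) / K) ^ 3 - (((p.2:ℝ) - 1 / 2) / K) ^ 3) / 3 := by
      intro x
      rw [← intervalIntegral.integral_of_le hle2]
      have : ∀ y : ℝ, A - (x ^ 2 + y ^ 2) = (A - x ^ 2) - y ^ 2 := fun y => by ring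
      simp_rw [this]
      rw [intervalIntegral.integral_sub (Continuous.intervalIntegrable (by fun_prop) _ _)
        (Continuous.intervalIntegrable (by fun_prop) _ _), intervalIntegral.integral_const,
        integral_pow, smul_eq_mul]
      have : ((p.2:ℝ) + 1 / 2) / K - ((p.2:ℝ) - 1 / 2) / K = 1 / K := by field_simp; ring
      rw [this]; norm_num; ring
    simp only [h1]
    rw [← intervalIntegral.integral_of_le hle1]
    have : ∀ x : ℝ, (A - x ^ 2) * (1 / K) -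
        (((p.2 + 1 / 2) / K) ^ 3 - (((p.2:ℝ) - 1 / 2) / K) ^ 3) / 3 =
        (A * (1 / K) - (((p.2 + 1 / 2) / K) ^ 3 - (((p.2:ℝ) - 1 / 2) / K) ^ 3) / 3) -
          (1 / K) * x ^ 2 := fun x => by ring
    simp_rw [this]
    rw [intervalIntegral.integral_sub (Continuous.intervalIntegrable (by fun_prop) _ _)
      (Continuous.intervalIntegrable (by fun_prop) _ _), intervalIntegral.integral_const,
      intervalIntegral.integral_const_mul, integral_pow, smul_eq_mul]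
    norm_num
    field_simp
    ring
  · have := cell_integrable K p (fun q => A - (q.1 ^ 2 + q.2 ^ 2)) (by fun_prop)
    unfold cell at this
    rwa [Measure.volume_eq_prod] at this

/-- cell averaging: the lattice sum of the paraboloid. -/
theorem lattice_sum (K : ℝ) (hK : 0 < K) (B : Finset (ℤ × ℤ)) (ν : ℝ) (hν : 0 ≤ ν) :
    ∑ p ∈ B, (ν - ((p.1:ℝ) ^ 2 + ((p.2:ℝ) / K) ^ 2)) ≤
      K * (Real.pi / 2) * (ν + (1 / 12 + 1 / (12 * K ^ 2))) ^ 2 := by
  set s := ν + (1 / 12 + 1 / (12 * K ^ 2)) with hs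
  have hs0 : 0 ≤ s := by rw [hs]; positivity
  have h1 : ∀ p ∈ B, (ν - ((p.1:ℝ) ^ 2 + ((p.2:ℝ) / K) ^ 2)) ≤
      K * ∫ q in cell K p, par s q := by
    intro p _
    have h2 : ∫ q in cell K p, (s - (q.1 ^ 2 + q.2 ^ 2)) ≤ ∫ q in cell K p, par s q := by
      apply setIntegral_mono (cell_integrable K p _ (by fun_prop))
        (par_integrable s).integrableOn
      intro q; exact le_max_left _ _
    rw [cell_integral K hK p s] at h2
    have h3 := mul_le_mul_of_nonneg_left h2 hK.le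
    have h4 : K * (1 / K * (s - ((p.1:ℝ) ^ 2 + ((p.2:ℝ) / K) ^ 2) - (1 / 12 + 1 / (12 * K ^ 2)))) =
        ν - ((p.1:ℝ) ^ 2 + ((p.2:ℝ) / K) ^ 2) := by
      rw [← mul_assoc, mul_one_div_cancel hK.ne', one_mul, hs]; ring
    rw [h4] at h3; exact h3
  refine (Finset.sum_le_sum h1).trans ?_
  rw [← Finset.mul_sum]
  have h5 : ∑ p ∈ B, ∫ q in cell K p, par s q = ∫ q in ⋃ p ∈ B, cell K p, par s q := by
    rw [integral_biUnion_finset B (fun p _ => cell_meas K p)]
    · intro p _ q _ hpq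
      exact cell_disj K hK p q hpq
    · intro p _; exact (par_integrable s).integrableOn
  rw [h5, mul_assoc]
  apply mul_le_mul_of_nonneg_left _ hK.le
  have h6 : ∫ q in ⋃ p ∈ B, cell K p, par s q ≤ ∫ q, par s q :=
    setIntegral_le_integral (par_integrable s) (Filter.Eventually.of_forall (par_nonneg s))
  rw [par_integral s hs0] at h6
  linarith

end Pool.Agent.Work.MP_33c50c_an.BLY
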