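import Mathlib
import Pool.Agent.Work.MP_33c50c_an.Cyl2

namespace Pool.Agent.Work.MP_33c50c_an.BLY

open MeasureTheory Set
open scoped ENNReal ContDiff

lemma norm_sub_le_int (F F' : ℝ → ℂ) (hd : ∀ y, HasDerivAt F (F' y) y) (hc : Continuous F')
    (a b : ℝ) (hab : a ≤ b) : ‖F b - F a‖ ≤ ∫ t in a..b, ‖F' t‖ := by
  rw [← intervalIntegral.integral_eq_sub_of_hasDerivAt (fun x _ => hd x) (hc.intervalIntegrable _ _)]
  exact intervalIntegral.norm_integral_le_integral_norm hab

/-- sup bound along the axis. -/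
lemma sup_y (F F' : ℝ → ℂ) (hd : ∀ y, HasDerivAt F (F' y) y) (hc : Continuous F') (R : ℝ)
    (h1 : F (-R) = 0) (h2 : F R = 0) (y : ℝ) (hy : y ∈ Icc (-R) R) :
    ‖F y‖ ≤ (1 / 2) * ∫ t in (-R)..R, ‖F' t‖ := by
  have e1 := norm_sub_le_int F F' hd hc (-R) y hy.1
  have e2 := norm_sub_le_int F F' hd hc y R hy.2
  rw [h1, sub_zero] at e1
  rw [h2, zero_sub, norm_neg] at e2
  have e3 := intervalIntegral.integral_add_adjacent_intervals
    (hc.norm.intervalIntegrable (μ := volume) (-R) y) (hc.norm.intervalIntegrable y R)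
  linarith

/-- oscillation bound on the circle. -/
lemma osc_x (F F' : ℝ → ℂ) (hd : ∀ y, HasDerivAt F (F' y) y) (hc : Continuous F') (P : ℝ)
    (h1 : F P = F 0) (x t : ℝ) (hx : x ∈ Icc 0 P) (ht : t ∈ Icc 0 P) (htx : t ≤ x) :
    ‖F x - F t‖ ≤ (1 / 2) * ∫ r in (0:ℝ)..P, ‖F' r‖ := by
  have e1 := norm_sub_le_int F F' hd hc t x htx
  have e2 := norm_sub_le_int F F' hd hc x P hx.2
  have e3 := norm_sub_le_int F F' hd hc 0 t ht.1
  have e4 : ‖F x - F t‖ ≤ ‖F P - F x‖ + ‖F t - F 0‖ := by
    have : F x - F t = -((F P - F x) + (F t - F 0)) := by rw [h1]; ring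
    rw [this, norm_neg]; exact norm_add_le _ _
  have i1 := intervalIntegral.integral_add_adjacent_intervals
    (hc.norm.intervalIntegrable (μ := volume) 0 t) (hc.norm.intervalIntegrable t x)
  have i2 := intervalIntegral.integral_add_adjacent_intervals
    (hc.norm.intervalIntegrable (μ := volume) 0 x) (hc.norm.intervalIntegrable x P)
  linarith

lemma sup_x (F F' : ℝ → ℂ) (hd : ∀ y, HasDerivAt F (F' y) y) (hc : Continuous F') (P : ℝ)
    (hP : 0 < P) (h1 : F P = F 0) (x : ℝ) (hx : x ∈ Icc 0 P) :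
    ‖F x‖ ≤ (1 / P) * (∫ t in (0:ℝ)..P, ‖F t‖) + (1 / 2) * ∫ r in (0:ℝ)..P, ‖F' r‖ := by
  have hF : Continuous F := continuous_iff_continuousAt.mpr (fun y => (hd y).continuousAt)
  set I := ∫ r in (0:ℝ)..P, ‖F' r‖ with hI
  have h2 : ∀ t ∈ Icc (0:ℝ) P, ‖F x‖ - (1 / 2) * I ≤ ‖F t‖ := by
    intro t ht
    have h3 : ‖F x - F t‖ ≤ (1 / 2) * I := by
      rcases le_total t x with h | h
      · exact osc_x F F' hd hc P h1 x t hx ht h
      · have := osc_x F F' hd hc P h1 t x ht hx h
        rwa [norm_sub_rev] at this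
    have := norm_sub_norm_le (F x) (F t)
    linarith
  have h4 := intervalIntegral.integral_mono_on hP.le
    (continuous_const.intervalIntegrable (μ := volume) 0 P) (hF.norm.intervalIntegrable 0 P) h2
  rw [intervalIntegral.integral_const, sub_zero, smul_eq_mul] at h4
  have h5 : ‖F x‖ - (1 / 2) * I ≤ (1 / P) * ∫ t in (0:ℝ)..P, ‖F t‖ := by
    have h6 := mul_le_mul_of_nonneg_left h4 (by positivity : (0:ℝ) ≤ 1 / P)
    rwa [← mul_assoc, one_div_mul_cancel hP.ne', one_mul] at h6
  linarith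

lemma norm_compact {E : Type*} [NormedAddCommGroup E] (f : Cyl → E) (hs : HasCompactSupport f) :
    HasCompactSupport fun p => ‖f p‖ := by
  apply HasCompactSupport.of_support_subset_isCompact hs
  intro p hp
  apply subset_tsupport
  intro h
  apply hp
  show ‖f p‖ = 0
  rw [h, norm_zero]

/-- Gagliardo-Nirenberg on the cylinder. -/
theorem gn (f : Cyl → ℂ) (hf : ContDiff ℝ 1 (lft f)) (hs : HasCompactSupport f) :
    ∫ p, ‖f p‖ ^ 2 ≤ ((1 / 2) * ∫ p, ‖dY f p‖) *
      ((1 / (2 * Real.pi)) * (∫ p, ‖f p‖) + (1 / 2) * ∫ p, ‖dX f p‖) := by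
  have hpi := Real.pi_pos
  obtain ⟨B, hB⟩ : ∃ B : ℝ, ∀ p ∈ tsupport f, |p.2| ≤ B := by
    obtain ⟨B, hB⟩ := (hs.isCompact.image continuous_snd).isBounded.exists_norm_le
    exact ⟨B, fun p hp => hB p.2 ⟨p, hp, rfl⟩⟩
  set R := |B| + 1 with hR
  have hR0 : 0 ≤ R := by positivity
  have hout : ∀ p : Cyl, R ≤ |p.2| → p ∉ tsupport f := by
    intro p hp hpK
    have := hB p hpK
    have := le_abs_self B
    linarith
  have hcf := cont_f f hf
  have hcX := cont_dX f hf
  have hcY := cont_dY f hf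
  have hf0 : ∀ p : Cyl, R ≤ |p.2| → f p = 0 := fun p hp => image_eq_zero_of_notMem_tsupport (hout p hp)
  have hX0 : ∀ p : Cyl, R ≤ |p.2| → dX f p = 0 := fun p hp => by
    by_contra h; exact hout p hp (dX_ne f p h)
  have hY0 : ∀ p : Cyl, R ≤ |p.2| → dY f p = 0 := fun p hp => by
    by_contra h; exact hout p hp (dY_ne f p h)
  have i0 := integral_cyl (fun p => ‖f p‖) hcf.norm (norm_compact f hs) R hR0
    (fun p hp => by rw [hf0 p hp, norm_zero])
  have iX := integral_cyl (fun p => ‖dX f p‖) hcX.norm (norm_compact _ (compact_dX f hs)) R hR0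
    (fun p hp => by rw [hX0 p hp, norm_zero])
  have iY := integral_cyl (fun p => ‖dY f p‖) hcY.norm (norm_compact _ (compact_dY f hs)) R hR0
    (fun p hp => by rw [hY0 p hp, norm_zero])
  have i2 := integral_cyl (fun p => ‖f p‖ ^ 2) (hcf.norm.pow 2) (by
      apply HasCompactSupport.of_support_subset_isCompact hs
      intro p hp
      apply subset_tsupport
      intro h
      apply hp
      show ‖f p‖ ^ 2 = 0
      rw [h, norm_zero]; simp) R hR0
    (fun p hp => by rw [hf0 p hp]; simp)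
  -- continuous versions on the plane
  have c0 : Continuous fun q : ℝ × ℝ => ‖f (pt q.1 q.2)‖ := (hcf.comp pt_continuous).norm
  have cX : Continuous fun q : ℝ × ℝ => ‖dX f (pt q.1 q.2)‖ := (hcX.comp pt_continuous).norm
  have cY : Continuous fun q : ℝ × ℝ => ‖dY f (pt q.1 q.2)‖ := (hcY.comp pt_continuous).norm
  set A : ℝ → ℝ := fun x => (1 / 2) * ∫ y in (-R)..R, ‖dY f (pt x y)‖ with hA
  set M : ℝ → ℝ := fun y => (1 / (2 * Real.pi)) * (∫ x in (0:ℝ)..(2 * Real.pi), ‖f (pt x y)‖) +
    (1 / 2) * ∫ x in (0:ℝ)..(2 * Real.pi), ‖dX f (pt x y)‖ with hM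
  have cA : Continuous A := by
    apply continuous_const.mul
    exact intervalIntegral.continuous_parametric_intervalIntegral_of_continuous' cY _ _
  have cM0 : Continuous fun y => ∫ x in (0:ℝ)..(2 * Real.pi), ‖f (pt x y)‖ := by
    apply intervalIntegral.continuous_parametric_intervalIntegral_of_continuous'
      (f := fun y x => ‖f (pt x y)‖)
    exact c0.comp (by fun_prop : Continuous fun q : ℝ × ℝ => (q.2, q.1))
  have cMX : Continuous fun y => ∫ x in (0:ℝ)..(2 * Real.pi), ‖dX f (pt x y)‖ := by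
    apply intervalIntegral.continuous_parametric_intervalIntegral_of_continuous'
      (f := fun y x => ‖dX f (pt x y)‖)
    exact cX.comp (by fun_prop : Continuous fun q : ℝ × ℝ => (q.2, q.1))
  have cM : Continuous M := (continuous_const.mul cM0).add (continuous_const.mul cMX)
  have hA0 : ∀ x, 0 ≤ A x := fun x => mul_nonneg (by norm_num)
    (intervalIntegral.integral_nonneg (by linarith) (fun y _ => norm_nonneg _))
  have hbA : ∀ x y, y ∈ Icc (-R) R → ‖f (pt x y)‖ ≤ A x := by
    intro x y hy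
    exact sup_y (fun t => f (pt x t)) (fun t => dY f (pt x t)) (fun t => hasDeriv_y f hf x t)
      (hcY.comp (pt_continuous.comp (by fun_prop : Continuous fun t : ℝ => (x, t)))) R
      (hf0 _ (by show R ≤ |(-R)|; rw [abs_neg, abs_of_nonneg hR0]))
      (hf0 _ (by show R ≤ |R|; rw [abs_of_nonneg hR0])) y hy
  have hbM : ∀ x y, x ∈ Icc (0:ℝ) (2 * Real.pi) → ‖f (pt x y)‖ ≤ M y := by
    intro x y hx
    refine sup_x (fun t => f (pt t y)) (fun t => dX f (pt t y)) (fun t => hasDeriv_x f hf t y)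
      (hcX.comp (pt_continuous.comp (by fun_prop : Continuous fun t : ℝ => (t, y)))) (2 * Real.pi)
      (by positivity) ?_ x hx
    have := pt_per 0 y
    rw [zero_add] at this
    show f (pt (2 * Real.pi) y) = f (pt 0 y)
    rw [this]
  rw [i2]
  have h1 : ∫ y in (-R)..R, ∫ x in (0:ℝ)..(2 * Real.pi), ‖f (pt x y)‖ ^ 2 ≤
      ∫ y in (-R)..R, (∫ x in (0:ℝ)..(2 * Real.pi), A x) * M y := by
    apply intervalIntegral.integral_mono_on (by linarith)
    · apply Continuous.intervalIntegrable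
      apply intervalIntegral.continuous_parametric_intervalIntegral_of_continuous'
        (f := fun y x => ‖f (pt x y)‖ ^ 2)
      exact (c0.comp (by fun_prop : Continuous fun q : ℝ × ℝ => (q.2, q.1))).pow 2
    · exact (continuous_const.mul cM).intervalIntegrable _ _
    · intro y hy
      rw [← intervalIntegral.integral_mul_const]
      apply intervalIntegral.integral_mono_on (by positivity)
      · apply Continuous.intervalIntegrable
        exact (c0.comp (by fun_prop : Continuous fun x : ℝ => (x, y))).pow 2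
      · exact (cA.mul continuous_const).intervalIntegrable _ _
      · intro x hx
        rw [pow_two]
        exact mul_le_mul (hbA x y hy) (hbM x y hx) (norm_nonneg _) (hA0 x)
  refine h1.trans ?_
  rw [intervalIntegral.integral_const_mul]
  have e1 : ∫ x in (0:ℝ)..(2 * Real.pi), A x = (1 / 2) * ∫ p, ‖dY f p‖ := by
    rw [iY, hA, intervalIntegral.integral_const_mul,
      swap_cont (fun x y => ‖dY f (pt x y)‖) cY]
  have e2 : ∫ y in (-R)..R, M y = (1 / (2 * Real.pi)) * (∫ p, ‖f p‖) + (1 / 2) * ∫ p, ‖dX f p‖ := by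
    rw [i0, iX, hM, ← intervalIntegral.integral_const_mul, ← intervalIntegral.integral_const_mul]
    exact intervalIntegral.integral_add
      ((continuous_const.mul cM0).intervalIntegrable _ _)
      ((continuous_const.mul cMX).intervalIntegrable _ _)
  rw [e1, e2]

end Pool.Agent.Work.MP_33c50c_an.BLY
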