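import Mathlib
import Pool.Agent.Work.MP_33c50c_an.BLY.Sob

namespace Pool.Agent.Work.MP_33c50c_an.BLY

open MeasureTheory Set
open scoped ENNReal ContDiff

lemma cs {α : Type*} [MeasurableSpace α] (μ : Measure α) (φ ψ : α → ℝ)
    (h1 : Integrable (fun x => φ x ^ 2) μ) (h2 : Integrable (fun x => ψ x ^ 2) μ)
    (h3 : Integrable (fun x => φ x * ψ x) μ) :
    (∫ x, φ x * ψ x ∂μ) ^ 2 ≤ (∫ x, φ x ^ 2 ∂μ) * ∫ x, ψ x ^ 2 ∂μ := by
  have h : ∀ t : ℝ, 0 ≤ (∫ x, φ x ^ 2 ∂μ) * (t * t) + (2 * ∫ x, φ x * ψ x ∂μ) * t +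
      ∫ x, ψ x ^ 2 ∂μ := by
    intro t
    have e : ∫ x, (t * φ x + ψ x) ^ 2 ∂μ = (∫ x, φ x ^ 2 ∂μ) * (t * t) +
        (2 * ∫ x, φ x * ψ x ∂μ) * t + ∫ x, ψ x ^ 2 ∂μ := by
      have e1 : ∀ x, (t * φ x + ψ x) ^ 2 = (t * t) * φ x ^ 2 + (2 * t) * (φ x * ψ x) + ψ x ^ 2 :=
        fun x => by ring
      simp_rw [e1]
      have j1 : Integrable (fun x => (t * t) * φ x ^ 2) μ := h1.const_mul _
      have j2 : Integrable (fun x => (2 * t) * (φ x * ψ x)) μ := h3.const_mul _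
      have j3 : Integrable (fun x => (t * t) * φ x ^ 2 + (2 * t) * (φ x * ψ x)) μ := j1.add j2
      rw [integral_add j3 h2, integral_add j1 j2, integral_const_mul, integral_const_mul]
      ring
    rw [← e]
    exact integral_nonneg (fun x => sq_nonneg _)
  have := discrim_le_zero h
  unfold discrim at this
  nlinarith

lemma arith (V d N a b m gx gy : ℝ) (hd0 : 0 ≤ d) (ha0 : 0 ≤ a) (hb0 : 0 ≤ b) (hm0 : 0 ≤ m)
    (hN0 : 0 ≤ N) (hgx0 : 0 ≤ gx) (hgy0 : 0 ≤ gy) (hV : V ≤ 1 / 5) (hX : a ^ 2 ≤ 4 * d * gx)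
    (hY : b ^ 2 ≤ 4 * d * gy)
    (hgn : N ≤ ((1 / 2) * b) * ((1 / (2 * Real.pi)) * m + (1 / 2) * a)) (hlow : V - 2 * d ≤ N)
    (hm : m ^ 2 ≤ V * N) : V ≤ d * (2 + (3 / 5) * (gx + gy)) := by
  have hpi := Real.pi_gt_three
  have hdgy : 0 ≤ d * gy := mul_nonneg hd0 hgy0
  have hdgx : 0 ≤ d * gx := mul_nonneg hd0 hgx0
  have hpi1 : 1 / (2 * Real.pi) ≤ 1 / 6 := by
    apply one_div_le_one_div_of_le (by norm_num); linarith
  have hgn2 : N ≤ (1 / 2 * b) * (1 / 6 * m + 1 / 2 * a) := by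
    refine hgn.trans ?_
    apply mul_le_mul_of_nonneg_left _ (by positivity)
    have := mul_le_mul_of_nonneg_right hpi1 hm0
    linarith
  have hab : a * b ≤ 2 * (d * gx) + 2 * (d * gy) := by linarith [sq_nonneg (a - b)]
  have hm2 : m ^ 2 ≤ 1 / 5 * N := hm.trans (mul_le_mul_of_nonneg_right hV hN0)
  have hbm : 1 / 12 * (b * m) ≤ N / 10 + b ^ 2 / 288 := by
    linarith [sq_nonneg (b - 12 * m)]
  have hN2 : N ≤ 1 / 4 * (a * b) + 1 / 12 * (b * m) := by linarith [hgn2]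
  have hfinal : N ≤ 3 / 5 * (d * gx + d * gy) := by linarith
  linarith

section
variable (w : Cyl → ℂ) (hw : ContDiff ℝ 1 (lft w)) (hs : HasCompactSupport w)
include hw hs

/-- the truncation `w (2 - w)`. -/
noncomputable def trunc (w : Cyl → ℂ) : Cyl → ℂ := fun p => w p * (2 - w p)

lemma trunc_lft : ContDiff ℝ 1 (lft (trunc w)) := hw.mul (contDiff_const.sub hw)

lemma trunc_compact : HasCompactSupport (trunc w) := hs.mul_right

lemma trunc_dX (p : Cyl) : dX (trunc w) p = 2 * (1 - w p) * dX w p := by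
  have h1 : HasDerivAt (fun t : ℝ => w (p.1 + (t : AddCircle (2 * Real.pi)), p.2)) (dX w p) 0 :=
    (diffX w hw p).hasDerivAt
  have h4 : w (p.1 + ((0:ℝ) : AddCircle (2 * Real.pi)), p.2) = w p := by simp
  have h2 := h1.mul (h1.const_sub 2)
  rw [h4] at h2
  have h3 : dX (trunc w) p = dX w p * (2 - w p) + w p * (-dX w p) := h2.deriv
  rw [h3]
  ring

lemma trunc_dY (p : Cyl) : dY (trunc w) p = 2 * (1 - w p) * dY w p := by
  have h1 : HasDerivAt (fun t : ℝ => w (p.1, p.2 + t)) (dY w p) 0 :=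
    (diffY w hw p).hasDerivAt
  have h4 : w (p.1, p.2 + (0:ℝ)) = w p := by simp
  have h2 := h1.mul (h1.const_sub 2)
  rw [h4] at h2
  have h3 : dY (trunc w) p = dY w p * (2 - w p) + w p * (-dY w p) := h2.deriv
  rw [h3]
  ring

variable (Ω : Set Cyl) (hΩ : IsOpen Ω) (hfin : volume Ω ≠ ⊤) (hsub : tsupport w ⊆ Ω)
include hΩ hfin hsub

lemma defect_int : Integrable (fun p => ‖1 - w p‖ ^ 2) (volume.restrict Ω) ∧
    ∫ p in Ω, ‖1 - w p‖ ^ 2 = (volume Ω).toReal - 2 * (∫ p, w p).re + ∫ p, ‖w p‖ ^ 2 := by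
  have hcw := cont_f w hw
  have i1 : Integrable w (volume : Measure Cyl) := hcw.integrable_of_hasCompactSupport hs
  have i2 : Integrable (fun p => ‖w p‖ ^ 2) (volume : Measure Cyl) := integrable_sq_norm w hcw hs
  have i3 : Integrable (fun p => (w p).re) (volume : Measure Cyl) := i1.re
  haveI : IsFiniteMeasure (volume.restrict Ω : Measure Cyl) := by
    constructor
    rw [Measure.restrict_apply_univ]
    exact lt_top_iff_ne_top.mpr hfin
  have e : ∀ p, ‖1 - w p‖ ^ 2 = (1 - 2 * (w p).re) + ‖w p‖ ^ 2 := by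
    intro p
    rw [← Complex.normSq_eq_norm_sq, ← Complex.normSq_eq_norm_sq, Complex.normSq_apply,
      Complex.normSq_apply]
    simp only [Complex.sub_re, Complex.one_re, Complex.sub_im, Complex.one_im]
    ring
  have j1 : Integrable (fun p => 1 - 2 * (w p).re) (volume.restrict Ω : Measure Cyl) :=
    (integrable_const 1).sub (i3.restrict.const_mul 2)
  simp_rw [e]
  refine ⟨j1.add i2.restrict, ?_⟩
  rw [integral_add j1 i2.restrict, integral_sub (integrable_const 1) (i3.restrict.const_mul 2),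
    integral_const_mul, integral_const]
  have hz : ∀ p ∉ Ω, w p = 0 := fun p hp => image_eq_zero_of_notMem_tsupport (fun h => hp (hsub h))
  have e1 : ∫ p in Ω, (w p).re = (∫ p, w p).re := by
    rw [setIntegral_eq_integral_of_forall_compl_eq_zero (fun p hp => by rw [hz p hp]; simp)]
    exact integral_re i1
  have e2 : ∫ p in Ω, ‖w p‖ ^ 2 = ∫ p, ‖w p‖ ^ 2 :=
    setIntegral_eq_integral_of_forall_compl_eq_zero (fun p hp => by rw [hz p hp]; simp)
  rw [e1, e2]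
  simp [Measure.real]

lemma deriv_cs (D : Cyl → ℂ) (hD : Continuous D) (hDs : HasCompactSupport D)
    (hDsub : ∀ p, D p ≠ 0 → p ∈ Ω) :
    (∫ p, ‖2 * (1 - w p) * D p‖) ^ 2 ≤
      4 * ((volume Ω).toReal - 2 * (∫ p, w p).re + ∫ p, ‖w p‖ ^ 2) * ∫ p, ‖D p‖ ^ 2 := by
  have hcw := cont_f w hw
  obtain ⟨h1, h2⟩ := defect_int w hw hs Ω hΩ hfin hsub
  have hz : ∀ p ∉ Ω, D p = 0 := fun p hp => by by_contra h; exact hp (hDsub p h)
  have i2 : Integrable (fun p => ‖D p‖ ^ 2) (volume : Measure Cyl) := integrable_sq_norm D hD hDs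
  have i3 : Integrable (fun p => ‖1 - w p‖ * ‖D p‖) (volume : Measure Cyl) := by
    apply Continuous.integrable_of_hasCompactSupport (by fun_prop)
    exact (norm_compact D hDs).mul_left
  have h3 := cs (volume.restrict Ω) (fun p => ‖1 - w p‖) (fun p => ‖D p‖) h1 i2.restrict i3.restrict
  rw [h2] at h3
  have e1 : ∫ p in Ω, ‖D p‖ ^ 2 = ∫ p, ‖D p‖ ^ 2 :=
    setIntegral_eq_integral_of_forall_compl_eq_zero (fun p hp => by rw [hz p hp]; simp)
  have e2 : ∫ p in Ω, ‖1 - w p‖ * ‖D p‖ = ∫ p, ‖1 - w p‖ * ‖D p‖ :=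
    setIntegral_eq_integral_of_forall_compl_eq_zero (fun p hp => by rw [hz p hp]; simp)
  rw [e1, e2] at h3
  have e3 : ∫ p, ‖2 * (1 - w p) * D p‖ = 2 * ∫ p, ‖1 - w p‖ * ‖D p‖ := by
    rw [← integral_const_mul]
    congr 1; ext p
    rw [norm_mul, norm_mul]; simp; ring
  rw [e3]
  calc (2 * ∫ p, ‖1 - w p‖ * ‖D p‖) ^ 2 = 4 * (∫ p, ‖1 - w p‖ * ‖D p‖) ^ 2 := by ring
    _ ≤ 4 * (((volume Ω).toReal - 2 * (∫ p, w p).re + ∫ p, ‖w p‖ ^ 2) * ∫ p, ‖D p‖ ^ 2) := by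
        exact mul_le_mul_of_nonneg_left h3 (by norm_num)
    _ = _ := by ring

/-- the key inequality. -/
theorem key (hV : (volume Ω).toReal ≤ 1 / 5) :
    0 ≤ (volume Ω).toReal - 2 * (∫ p, w p).re + ∫ p, ‖w p‖ ^ 2 ∧
    (volume Ω).toReal ≤ ((volume Ω).toReal - 2 * (∫ p, w p).re + ∫ p, ‖w p‖ ^ 2) *
      (2 + (3 / 5) * ((∫ p, ‖dX w p‖ ^ 2) + ∫ p, ‖dY w p‖ ^ 2)) := by
  have hpi := Real.pi_gt_three
  have hcw := cont_f w hw
  obtain ⟨h1, h2⟩ := defect_int w hw hs Ω hΩ hfin hsub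
  have hX := deriv_cs w hw hs Ω hΩ hfin hsub (dX w) (cont_dX w hw) (compact_dX w hs)
    (fun p hp => hsub (dX_ne w p hp))
  have hY := deriv_cs w hw hs Ω hΩ hfin hsub (dY w) (cont_dY w hw) (compact_dY w hs)
    (fun p hp => hsub (dY_ne w p hp))
  simp_rw [← trunc_dX w hw hs] at hX
  simp_rw [← trunc_dY w hw hs] at hY
  have hd0 : 0 ≤ (volume Ω).toReal - 2 * (∫ p, w p).re + ∫ p, ‖w p‖ ^ 2 := by
    rw [← h2]; exact integral_nonneg (fun p => sq_nonneg _)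
  set d := (volume Ω).toReal - 2 * (∫ p, w p).re + ∫ p, ‖w p‖ ^ 2 with hd
  set V := (volume Ω).toReal with hVdef
  set f := trunc w with hf
  have hfl : ContDiff ℝ 1 (lft f) := trunc_lft w hw hs
  have hfs : HasCompactSupport f := trunc_compact w hw hs
  have hcf := cont_f f hfl
  have hz : ∀ p ∉ Ω, w p = 0 := fun p hp => image_eq_zero_of_notMem_tsupport (fun h => hp (hsub h))
  have hzf : ∀ p ∉ Ω, f p = 0 := fun p hp => by rw [hf]; unfold trunc; rw [hz p hp]; simp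
  have hgn := gn f hfl hfs
  have hN := integrable_sq_norm f hcf hfs
  haveI : IsFiniteMeasure (volume.restrict Ω : Measure Cyl) := by
    constructor
    rw [Measure.restrict_apply_univ]
    exact lt_top_iff_ne_top.mpr hfin
  set N := ∫ p, ‖f p‖ ^ 2 with hNdef
  have eN : ∫ p in Ω, ‖f p‖ ^ 2 = N :=
    setIntegral_eq_integral_of_forall_compl_eq_zero (fun p hp => by rw [hzf p hp]; simp)
  -- lower bound for `N`
  have hlow : V - 2 * d ≤ N := by
    rw [← eN, ← h2]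
    have e1 : V - 2 * ∫ p in Ω, ‖1 - w p‖ ^ 2 = ∫ p in Ω, (1 - 2 * ‖1 - w p‖ ^ 2) := by
      rw [integral_sub (integrable_const 1) (h1.const_mul 2), integral_const_mul, integral_const]
      simp [Measure.real, hVdef]
    rw [e1]
    apply integral_mono ((integrable_const 1).sub (h1.const_mul 2)) hN.restrict
    intro p
    show 1 - 2 * ‖1 - w p‖ ^ 2 ≤ ‖f p‖ ^ 2
    have e2 : f p = 1 - (1 - w p) ^ 2 := by rw [hf]; unfold trunc; ring
    have e3 : 1 - ‖1 - w p‖ ^ 2 ≤ ‖f p‖ := by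
      rw [e2]
      have := norm_sub_norm_le (1:ℂ) ((1 - w p) ^ 2)
      rwa [norm_one, norm_pow] at this
    by_cases h : ‖1 - w p‖ ^ 2 ≤ 1
    · nlinarith [sq_nonneg (‖1 - w p‖ ^ 2)]
    · nlinarith [sq_nonneg ‖f p‖]
  -- the `L¹` norm
  have hm : (∫ p, ‖f p‖) ^ 2 ≤ V * N := by
    have i1 : Integrable f (volume : Measure Cyl) := hcf.integrable_of_hasCompactSupport hfs
    have h3 := cs (volume.restrict Ω) (fun _ => (1:ℝ)) (fun p => ‖f p‖)
      (by simp) hN.restrict (by simpa using i1.norm.restrict)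
    have e4 : ∫ p in Ω, (1:ℝ) * ‖f p‖ = ∫ p, ‖f p‖ := by
      simp_rw [one_mul]
      exact setIntegral_eq_integral_of_forall_compl_eq_zero (fun p hp => by rw [hzf p hp]; simp)
    have e5 : ∫ _ in Ω, (1:ℝ) ^ 2 = V := by
      simp [Measure.real, hVdef]
    rw [e4, e5, eN] at h3
    exact h3
  refine ⟨hd0, ?_⟩
  set m := ∫ p, ‖f p‖ with hmdef
  set a := ∫ p, ‖dX f p‖ with hadef
  set b := ∫ p, ‖dY f p‖ with hbdef
  set gx := ∫ p, ‖dX w p‖ ^ 2 with hgx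
  set gy := ∫ p, ‖dY w p‖ ^ 2 with hgy
  have ha0 : 0 ≤ a := integral_nonneg (fun p => norm_nonneg _)
  have hb0 : 0 ≤ b := integral_nonneg (fun p => norm_nonneg _)
  have hm0 : 0 ≤ m := integral_nonneg (fun p => norm_nonneg _)
  have hN0 : 0 ≤ N := integral_nonneg (fun p => sq_nonneg _)
  have hgx0 : 0 ≤ gx := integral_nonneg (fun p => sq_nonneg _)
  have hgy0 : 0 ≤ gy := integral_nonneg (fun p => sq_nonneg _)
  have hV0 : 0 ≤ V := ENNReal.toReal_nonneg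
  exact arith V d N a b m gx gy hd0 ha0 hb0 hm0 hN0 hgx0 hgy0 hV hX hY hgn hlow hm

end

end Pool.Agent.Work.MP_33c50c_an.BLY
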