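import Mathlib
import Pool.Agent.Work.MP_33c50c_an.Cyl2

namespace Pool.Agent.Work.MP_33c50c_an.BLY

open MeasureTheory Set
open scoped ENNReal ContDiff

/-- Fourier coefficient on the cylinder. -/
noncomputable def cf (K : ℝ) (f : Cyl → ℂ) (p : ℤ × ℤ) : ℂ := ∫ q, chr p.1 ((p.2:ℝ) / K) q * f q

section
variable (K : ℝ) (hK : 0 < K) (f : Cyl → ℂ) (hf : Continuous f) (hs : HasCompactSupport f)
  (h0 : ∀ p : Cyl, Real.pi * K ≤ |p.2| → f p = 0)
include hK hf hs h0

lemma cf_coef (n : ℤ) (ξ : ℝ) : ∫ q, chr n ξ q * f q =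
    coef (2 * Real.pi * K) (fun x y => f (pt x y)) n ξ := by
  have hpi := Real.pi_pos
  have h := integral_cyl (fun p => chr n ξ p * f p) ((chr_continuous _ _).mul hf) hs.mul_left
    (2 * Real.pi * K) (by positivity)
    (by intro p hp
        rw [h0 p (by nlinarith [mul_pos hpi hK]), mul_zero])
  rw [h]
  unfold coef
  congr 1; ext y; congr 1; ext x
  rw [chr_pt]

lemma parseval : HasSum (fun p : ℤ × ℤ => ‖cf K f p‖ ^ 2)
    (4 * Real.pi ^ 2 * K * ∫ q, ‖f q‖ ^ 2) := by
  have hpi := Real.pi_pos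
  have hpK := mul_pos hpi hK
  have h := parseval_cyl (2 * Real.pi * K) (by positivity) 1 (fun x y => f (pt x y))
    (hf.comp pt_continuous) (fun x y => by rw [pt_per]) 0
    (by
      intro x y j hj
      by_cases hy : Real.pi * K ≤ |y|
      · left; exact h0 _ hy
      · right
        apply h0
        show Real.pi * K ≤ |y + j * (2 * Real.pi * K)|
        rw [not_le, abs_lt] at hy
        rcases lt_or_gt_of_ne hj with h | h
        · have h1 : (j:ℝ) ≤ -1 := by exact_mod_cast (by omega : j ≤ -1)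
          rw [le_abs]; right
          nlinarith
        · have h1 : (1:ℝ) ≤ j := by exact_mod_cast (by omega : 1 ≤ j)
          rw [le_abs]; left
          nlinarith) 0
  have e1 : ∀ p : ℤ × ℤ, coef ((1:ℕ) * (2 * Real.pi * K)) (fun x y => f (pt x y)) p.1
      (2 * Real.pi / (2 * Real.pi * K) * (p.2 + 0 - p.1 * (0 / (2 * Real.pi)))) = cf K f p := by
    intro p
    have e2 : 2 * Real.pi / (2 * Real.pi * K) * ((p.2:ℝ) + 0 - p.1 * (0 / (2 * Real.pi))) =
        (p.2:ℝ) / K := by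
      field_simp; ring
    rw [e2, Nat.cast_one, one_mul]
    exact (cf_coef K hK f hf hs h0 p.1 _).symm
  have e3 : ∫ y in (-((1:ℕ) * (2 * Real.pi * K)))..((1:ℕ) * (2 * Real.pi * K)),
      ∫ x in (0:ℝ)..(2 * Real.pi), ‖f (pt x y)‖ ^ 2 = ∫ q, ‖f q‖ ^ 2 := by
    rw [Nat.cast_one, one_mul]
    symm
    apply integral_cyl (fun p => ‖f p‖ ^ 2) (hf.norm.pow 2) _ _ (by positivity)
    · intro p hp; rw [h0 p (by nlinarith)]; simp
    · apply HasCompactSupport.of_support_subset_isCompact hs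
      intro p hp
      apply subset_tsupport
      intro h
      apply hp
      show ‖f p‖ ^ 2 = 0
      rw [h, norm_zero]; simp
  simp_rw [e1] at h
  rw [e3] at h
  convert h using 1
  ring

end

section
variable (K : ℝ) (hK : 0 < K) (f : Cyl → ℂ) (hf : ContDiff ℝ 1 (lft f)) (hs : HasCompactSupport f)
  (h0 : ∀ p : Cyl, Real.pi * K ≤ |p.2| → p ∉ tsupport f)
include hK hf hs h0

lemma cf_dX (p : ℤ × ℤ) : cf K (dX f) p = Complex.I * p.1 * cf K f p := by
  have hpi := Real.pi_pos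
  have hcf := cont_f f hf
  have hcX := cont_dX f hf
  have z0 : ∀ p : Cyl, Real.pi * K ≤ |p.2| → f p = 0 := fun p hp =>
    image_eq_zero_of_notMem_tsupport (h0 p hp)
  have zX : ∀ p : Cyl, Real.pi * K ≤ |p.2| → dX f p = 0 := fun p hp => by
    by_contra h; exact h0 p hp (dX_ne f p h)
  unfold cf
  rw [cf_coef K hK f hcf hs z0, cf_coef K hK (dX f) hcX (compact_dX f hs) zX]
  exact coef_x (2 * Real.pi * K) (fun x y => f (pt x y)) (fun x y => dX f (pt x y)) p.1 _
    (hcX.comp pt_continuous) (fun x y => hasDeriv_x f hf x y) (hcf.comp pt_continuous)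
    (fun x y => by rw [pt_per])

lemma cf_dY (p : ℤ × ℤ) : cf K (dY f) p = Complex.I * ((p.2:ℝ) / K : ℝ) * cf K f p := by
  have hpi := Real.pi_pos
  have hpK := mul_pos hpi hK
  have hcf := cont_f f hf
  have hcY := cont_dY f hf
  have z0 : ∀ p : Cyl, Real.pi * K ≤ |p.2| → f p = 0 := fun p hp =>
    image_eq_zero_of_notMem_tsupport (h0 p hp)
  have zY : ∀ p : Cyl, Real.pi * K ≤ |p.2| → dY f p = 0 := fun p hp => by
    by_contra h; exact h0 p hp (dY_ne f p h)
  unfold cf
  rw [cf_coef K hK f hcf hs z0, cf_coef K hK (dY f) hcY (compact_dY f hs) zY]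
  exact coef_y (2 * Real.pi * K) (fun x y => f (pt x y)) (fun x y => dY f (pt x y)) p.1 _
    (hcY.comp pt_continuous) (fun x y => hasDeriv_y f hf x y) (hcf.comp pt_continuous)
    (fun x => z0 _ (by show Real.pi * K ≤ |2 * Real.pi * K|; rw [abs_of_pos (by positivity)]; nlinarith))
    (fun x => z0 _ (by
      show Real.pi * K ≤ |-(2 * Real.pi * K)|
      rw [abs_neg, abs_of_pos (by positivity)]; nlinarith))

/-- Parseval for the gradient. -/
lemma parseval_grad : HasSum (fun p : ℤ × ℤ => ((p.1:ℝ) ^ 2 + ((p.2:ℝ) / K) ^ 2) * ‖cf K f p‖ ^ 2)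
    (4 * Real.pi ^ 2 * K * ((∫ q, ‖dX f q‖ ^ 2) + ∫ q, ‖dY f q‖ ^ 2)) := by
  have hcX := cont_dX f hf
  have hcY := cont_dY f hf
  have zX : ∀ p : Cyl, Real.pi * K ≤ |p.2| → dX f p = 0 := fun p hp => by
    by_contra h; exact h0 p hp (dX_ne f p h)
  have zY : ∀ p : Cyl, Real.pi * K ≤ |p.2| → dY f p = 0 := fun p hp => by
    by_contra h; exact h0 p hp (dY_ne f p h)
  have s1 := parseval K hK (dX f) hcX (compact_dX f hs) zX
  have s2 := parseval K hK (dY f) hcY (compact_dY f hs) zY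
  have s3 := s1.add s2
  rw [← mul_add] at s3
  convert s3 using 1
  ext p
  rw [cf_dX K hK f hf hs h0, cf_dY K hK f hf hs h0, norm_mul, norm_mul, norm_mul, norm_mul,
    Complex.norm_I, one_mul, one_mul, Complex.norm_intCast, Complex.norm_real, mul_pow, mul_pow,
    sq_abs, Real.norm_eq_abs, sq_abs]
  ring

end

end Pool.Agent.Work.MP_33c50c_an.BLY
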