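import Mathlib
import Pool.Agent.Work.MP_33c50c_an.BLY.Key
import Pool.Agent.Work.MP_33c50c_an.BLY.Pars

namespace Pool.Agent.Work.MP_33c50c_an.BLY

open MeasureTheory Set
open scoped ENNReal ContDiff ComplexConjugate

/-- the complex combination of real functions. -/
noncomputable def lin {k : ℕ} (u : Fin k → Cyl → ℝ) (z : Fin k → ℂ) (p : Cyl) : ℂ :=
  ∑ i, z i * (u i p : ℂ)

section
variable {k : ℕ} (u : Fin k → Cyl → ℝ)

lemma term_lft (v : Cyl → ℝ) (hv : ContDiff ℝ 1 (lft v)) (z : ℂ) :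
    ContDiff ℝ 1 (lft fun p => z * (v p : ℂ)) := by
  have h1 : ContDiff ℝ 1 fun q => ((lft v q : ℝ) : ℂ) := Complex.ofRealCLM.contDiff.comp hv
  exact contDiff_const.mul h1

lemma lin_lft (hu : ∀ i, ContDiff ℝ 1 (lft (u i))) (z : Fin k → ℂ) :
    ContDiff ℝ 1 (lft (lin u z)) := by
  have : lft (lin u z) = fun q => ∑ i, lft (fun p => z i * (u i p : ℂ)) q := rfl
  rw [this]
  exact ContDiff.sum (fun i _ => term_lft (u i) (hu i) (z i))

lemma lin_dX (hu : ∀ i, ContDiff ℝ 1 (lft (u i))) (z : Fin k → ℂ) (p : Cyl) :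
    dX (lin u z) p = ∑ i, z i * ((dX (u i) p : ℝ) : ℂ) := by
  have h := dX_sum Finset.univ (fun i p => z i * (u i p : ℂ)) (fun i => term_lft (u i) (hu i) (z i)) p
  refine h.trans (Finset.sum_congr rfl (fun i _ => ?_))
  exact ((diffX (u i) (hu i) p).hasDerivAt.ofReal_comp.const_mul (z i)).deriv

lemma lin_dY (hu : ∀ i, ContDiff ℝ 1 (lft (u i))) (z : Fin k → ℂ) (p : Cyl) :
    dY (lin u z) p = ∑ i, z i * ((dY (u i) p : ℝ) : ℂ) := by
  have h := dY_sum Finset.univ (fun i p => z i * (u i p : ℂ)) (fun i => term_lft (u i) (hu i) (z i)) p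
  refine h.trans (Finset.sum_congr rfl (fun i _ => ?_))
  exact ((diffY (u i) (hu i) p).hasDerivAt.ofReal_comp.const_mul (z i)).deriv

/-- the union of the supports. -/
def sup (u : Fin k → Cyl → ℝ) : Set Cyl := ⋃ i, tsupport (u i)

lemma lin_zero (z : Fin k → ℂ) (p : Cyl) (hp : p ∉ sup u) : lin u z p = 0 := by
  unfold lin
  apply Finset.sum_eq_zero
  intro i _
  rw [image_eq_zero_of_notMem_tsupport (fun h => hp (mem_iUnion_of_mem i h))]
  simp

lemma sup_compact (hs : ∀ i, HasCompactSupport (u i)) : IsCompact (sup u) :=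
  isCompact_iUnion (fun i => hs i)

lemma lin_compact (hs : ∀ i, HasCompactSupport (u i)) (z : Fin k → ℂ) :
    HasCompactSupport (lin u z) := by
  apply HasCompactSupport.of_support_subset_isCompact (sup_compact u hs)
  intro p hp
  by_contra h
  exact hp (lin_zero u z p h)

lemma lin_tsupport (hs : ∀ i, HasCompactSupport (u i)) (z : Fin k → ℂ) :
    tsupport (lin u z) ⊆ sup u := by
  apply closure_minimal _ (sup_compact u hs).isClosed
  intro p hp
  by_contra h
  exact hp (lin_zero u z p h)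

lemma lin_normSq (z : Fin k → ℂ) (p : Cyl) :
    ‖lin u z p‖ ^ 2 = (∑ i, (z i).re * u i p) ^ 2 + (∑ i, (z i).im * u i p) ^ 2 := by
  rw [← Complex.normSq_eq_norm_sq, Complex.normSq_apply]
  unfold lin
  rw [Complex.re_sum, Complex.im_sum]
  have h1 : ∀ i, (z i * (u i p : ℂ)).re = (z i).re * u i p := fun i => by simp
  have h2 : ∀ i, (z i * (u i p : ℂ)).im = (z i).im * u i p := fun i => by simp
  simp_rw [h1, h2]; ring

lemma prod_integrable (hu : ∀ i, ContDiff ℝ 1 (lft (u i))) (hs : ∀ i, HasCompactSupport (u i))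
    (i j : Fin k) : Integrable (fun p => u i p * u j p) (volume : Measure Cyl) :=
  ((cont_f _ (hu i)).mul (cont_f _ (hu j))).integrable_of_hasCompactSupport (hs i).mul_right

variable (hu : ∀ i, ContDiff ℝ 1 (lft (u i))) (hs : ∀ i, HasCompactSupport (u i))
  (ho : ∀ i j, ∫ p, u i p * u j p = if i = j then 1 else 0)
include hu hs ho

lemma real_norm (a : Fin k → ℝ) : Integrable (fun p => (∑ i, a i * u i p) ^ 2) (volume : Measure Cyl) ∧
    ∫ p, (∑ i, a i * u i p) ^ 2 = ∑ i, a i ^ 2 := by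
  have e : ∀ p, (∑ i, a i * u i p) ^ 2 = ∑ i, ∑ j, (a i * a j) * (u i p * u j p) := by
    intro p
    rw [pow_two, Finset.sum_mul_sum]
    apply Finset.sum_congr rfl; intro i _
    apply Finset.sum_congr rfl; intro j _
    ring
  simp_rw [e]
  have hi : ∀ i j, Integrable (fun p => (a i * a j) * (u i p * u j p)) (volume : Measure Cyl) :=
    fun i j => (prod_integrable u hu hs i j).const_mul _
  refine ⟨integrable_finsetSum _ (fun i _ => integrable_finsetSum _ (fun j _ => hi i j)), ?_⟩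
  rw [integral_finsetSum _ (fun i _ => integrable_finsetSum _ (fun j _ => hi i j))]
  apply Finset.sum_congr rfl; intro i _
  rw [integral_finsetSum _ (fun j _ => hi i j)]
  simp_rw [integral_const_mul, ho]
  simp; ring

lemma lin_norm (z : Fin k → ℂ) : ∫ p, ‖lin u z p‖ ^ 2 = ∑ i, ‖z i‖ ^ 2 := by
  simp_rw [lin_normSq]
  obtain ⟨i1, e1⟩ := real_norm u hu hs ho (fun i => (z i).re)
  obtain ⟨i2, e2⟩ := real_norm u hu hs ho (fun i => (z i).im)
  rw [integral_add i1 i2, e1, e2, ← Finset.sum_add_distrib]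
  apply Finset.sum_congr rfl; intro i _
  rw [← Complex.normSq_eq_norm_sq, Complex.normSq_apply]; ring

end

/-- the coefficients of the family. -/
noncomputable def cc {k : ℕ} (K : ℝ) (u : Fin k → Cyl → ℝ) (p : ℤ × ℤ) (j : Fin k) : ℂ :=
  cf K (fun q => (u j q : ℂ)) p

/-- the sum of the squares of the coefficients. -/
noncomputable def aa {k : ℕ} (K : ℝ) (u : Fin k → Cyl → ℝ) (p : ℤ × ℤ) : ℝ := ∑ j, ‖cc K u p j‖ ^ 2

/-- the symbol. -/
noncomputable def qq (K : ℝ) (p : ℤ × ℤ) : ℝ := (p.1:ℝ) ^ 2 + ((p.2:ℝ) / K) ^ 2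

section
variable {k : ℕ} (K : ℝ) (hK : 0 < K) (u : Fin k → Cyl → ℝ)
  (hu : ∀ i, ContDiff ℝ 1 (lft (u i))) (hs : ∀ i, HasCompactSupport (u i))
  (ho : ∀ i j, ∫ p, u i p * u j p = if i = j then 1 else 0)
  (h0 : ∀ p : Cyl, Real.pi * K ≤ |p.2| → p ∉ sup u)

lemma one_lft (v : Cyl → ℝ) (hv : ContDiff ℝ 1 (lft v)) : ContDiff ℝ 1 (lft fun p => (v p : ℂ)) :=
  Complex.ofRealCLM.contDiff.comp hv

lemma one_compact (v : Cyl → ℝ) (hv : HasCompactSupport v) : HasCompactSupport fun p => (v p : ℂ) :=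
  hv.comp_left (g := fun x : ℝ => (x : ℂ)) (by simp)

lemma one_dX (v : Cyl → ℝ) (hv : ContDiff ℝ 1 (lft v)) (p : Cyl) :
    dX (fun p => (v p : ℂ)) p = ((dX v p : ℝ) : ℂ) := (diffX v hv p).hasDerivAt.ofReal_comp.deriv

lemma one_dY (v : Cyl → ℝ) (hv : ContDiff ℝ 1 (lft v)) (p : Cyl) :
    dY (fun p => (v p : ℂ)) p = ((dY v p : ℝ) : ℂ) := (diffY v hv p).hasDerivAt.ofReal_comp.deriv

lemma one_ts (v : Cyl → ℝ) (hv : HasCompactSupport v) (p : Cyl) (hp : p ∉ tsupport v) :
    p ∉ tsupport fun p => (v p : ℂ) := by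
  intro h
  apply hp
  have : tsupport (fun p => (v p : ℂ)) ⊆ tsupport v := by
    apply closure_minimal _ (isClosed_tsupport v)
    intro q hq
    apply subset_tsupport
    intro h'
    apply hq
    show ((v q : ℝ) : ℂ) = 0
    rw [h']; simp
  exact this h

include hK hu hs ho h0

lemma sum_aa : HasSum (aa K u) (4 * Real.pi ^ 2 * K * k) := by
  have h : ∀ j ∈ (Finset.univ : Finset (Fin k)), HasSum (fun p => ‖cc K u p j‖ ^ 2)
      (4 * Real.pi ^ 2 * K) := by
    intro j _
    have h1 := parseval K hK (fun q => (u j q : ℂ)) (cont_f _ (one_lft (u j) (hu j)))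
      (one_compact (u j) (hs j)) (fun p hp => by
        show ((u j p : ℝ) : ℂ) = 0
        rw [image_eq_zero_of_notMem_tsupport (fun h => h0 p hp (mem_iUnion_of_mem j h))]; simp)
    have h2 : ∫ q, ‖((u j q : ℝ) : ℂ)‖ ^ 2 = 1 := by
      have := ho j j
      simp only [if_true] at this
      rw [← this]
      congr 1; ext q
      rw [Complex.norm_real, Real.norm_eq_abs, sq_abs]; ring
    rw [h2, mul_one] at h1
    exact h1
  have h3 := hasSum_sum h
  rw [Finset.sum_const, Finset.card_univ, Fintype.card_fin, nsmul_eq_mul, mul_comm] at h3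
  exact h3

lemma sum_qaa : HasSum (fun p => qq K p * aa K u p)
    (4 * Real.pi ^ 2 * K * ∑ j, energy (u j)) := by
  have h : ∀ j ∈ (Finset.univ : Finset (Fin k)), HasSum (fun p => qq K p * ‖cc K u p j‖ ^ 2)
      (4 * Real.pi ^ 2 * K * energy (u j)) := by
    intro j _
    have h1 := parseval_grad K hK (fun q => (u j q : ℂ)) (one_lft (u j) (hu j))
      (one_compact (u j) (hs j)) (fun p hp => one_ts (u j) (hs j) p
        (fun h => h0 p hp (mem_iUnion_of_mem j h)))
    have h2 : (∫ q, ‖dX (fun q => (u j q : ℂ)) q‖ ^ 2) + ∫ q, ‖dY (fun q => (u j q : ℂ)) q‖ ^ 2 =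
        energy (u j) := by
      unfold energy
      rw [integral_add (integrable_sq _ (cont_dX _ (hu j)) (compact_dX _ (hs j)))
        (integrable_sq _ (cont_dY _ (hu j)) (compact_dY _ (hs j)))]
      congr 1
      · congr 1; ext q
        rw [one_dX _ (hu j), Complex.norm_real, Real.norm_eq_abs, sq_abs]
      · congr 1; ext q
        rw [one_dY _ (hu j), Complex.norm_real, Real.norm_eq_abs, sq_abs]
    rw [h2] at h1
    exact h1
  have h3 := hasSum_sum h
  rw [← Finset.mul_sum] at h3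
  convert h3 using 1
  ext p
  unfold aa
  rw [Finset.mul_sum]

/-- Bessel for real combinations. -/
lemma bessel (b : Fin k → ℝ) (S : Finset (ℤ × ℤ)) :
    ∑ p ∈ S, ‖∑ j, (b j : ℂ) * cc K u p j‖ ^ 2 ≤ 4 * Real.pi ^ 2 * K * ∑ j, b j ^ 2 := by
  have hl := lin_lft u hu (fun j => (b j : ℂ))
  have hc := lin_compact u hs (fun j => (b j : ℂ))
  have h1 := parseval K hK (lin u (fun j => (b j : ℂ))) (cont_f _ hl) hc
    (fun p hp => lin_zero u _ p (h0 p hp))
  rw [lin_norm u hu hs ho] at h1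
  have h2 : ∀ p, cf K (lin u (fun j => (b j : ℂ))) p = ∑ j, (b j : ℂ) * cc K u p j := by
    intro p
    unfold cf lin cc
    have e : ∀ q, chr p.1 ((p.2:ℝ) / K) q * ∑ j, (b j : ℂ) * (u j q : ℂ) =
        ∑ j, (b j : ℂ) * (chr p.1 ((p.2:ℝ) / K) q * (u j q : ℂ)) := by
      intro q
      rw [Finset.mul_sum]
      apply Finset.sum_congr rfl; intro j _; ring
    simp_rw [e]
    rw [integral_finsetSum]
    · apply Finset.sum_congr rfl; intro j _
      rw [integral_const_mul]; rfl
    · intro j _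
      apply Integrable.const_mul
      apply Continuous.integrable_of_hasCompactSupport
      · exact (chr_continuous _ _).mul (cont_f _ (one_lft (u j) (hu j)))
      · exact (one_compact (u j) (hs j)).mul_left
  simp_rw [h2] at h1
  have h3 := sum_le_hasSum S (fun p _ => by positivity) h1
  refine h3.trans (le_of_eq ?_)
  congr 1
  apply Finset.sum_congr rfl; intro j _
  rw [Complex.norm_real, Real.norm_eq_abs, sq_abs]

end

end Pool.Agent.Work.MP_33c50c_an.BLY
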