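import Mathlib
import Pool.Agent.Work.MP_33c50c_an.BLY.Fam

namespace Pool.Agent.Work.MP_33c50c_an.BLY

open MeasureTheory Set
open scoped ENNReal ContDiff ComplexConjugate

lemma ph_contDiff (ξ : ℝ) : ContDiff ℝ 1 (ph ξ) := by
  unfold ph
  have h1 : ContDiff ℝ 1 fun y : ℝ => ((ξ * y : ℝ) : ℂ) :=
    Complex.ofRealCLM.contDiff.comp (contDiff_const.mul contDiff_id)
  exact ((contDiff_const.mul h1).neg).cexp

lemma chr_lft (n : ℤ) (ξ : ℝ) : ContDiff ℝ 1 (lft (chr n ξ)) := by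
  have : lft (chr n ξ) = fun q : ℝ × ℝ => ph n q.1 * ph ξ q.2 := by
    ext q; exact chr_pt n ξ q.1 q.2
  rw [this]
  exact ((ph_contDiff n).comp contDiff_fst).mul ((ph_contDiff ξ).comp contDiff_snd)

lemma chr_norm (n : ℤ) (ξ : ℝ) (p : Cyl) : ‖chr n ξ p‖ = 1 := by
  obtain ⟨x, hx⟩ := pt_surj p
  rw [← hx, chr_pt, norm_mul, ph_norm, ph_norm, one_mul]

lemma chr_dX (n : ℤ) (ξ : ℝ) (P : Cyl → ℂ) (hP : ContDiff ℝ 1 (lft P)) (p : Cyl) :
    dX (fun q => chr n ξ q * P q) p = chr n ξ p * (-(Complex.I * n) * P p + dX P p) := by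
  obtain ⟨x, hx⟩ := pt_surj p
  rw [← hx]
  rw [dX_pt]
  have e : (fun t => chr n ξ (pt t p.2) * P (pt t p.2)) =
      fun t => (ph n t * ph ξ p.2) * P (pt t p.2) := by
    ext t; rw [chr_pt]
  rw [e]
  have h1 := (ph_hasDerivAt n x).mul_const (ph ξ p.2)
  have h2 := h1.mul (hasDeriv_x P hP x p.2)
  have h3 := h2.deriv
  refine h3.trans ?_
  rw [chr_pt]
  push_cast
  ring

lemma chr_dY (n : ℤ) (ξ : ℝ) (P : Cyl → ℂ) (hP : ContDiff ℝ 1 (lft P)) (p : Cyl) :
    dY (fun q => chr n ξ q * P q) p = chr n ξ p * (-(Complex.I * ξ) * P p + dY P p) := by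
  obtain ⟨x, hx⟩ := pt_surj p
  rw [← hx]
  rw [dY_pt]
  have e : (fun t => chr n ξ (pt x t) * P (pt x t)) =
      fun t => (ph n x * ph ξ t) * P (pt x t) := by
    ext t; rw [chr_pt]
  rw [e]
  have h1 := (ph_hasDerivAt ξ p.2).const_mul (ph n x)
  have h2 := h1.mul (hasDeriv_y P hP x p.2)
  have h3 := h2.deriv
  refine h3.trans ?_
  rw [chr_pt]
  ring

lemma sq_norm_add (a b : ℂ) : ‖a + b‖ ^ 2 ≤ 2 * ‖a‖ ^ 2 + 2 * ‖b‖ ^ 2 := by
  have h := norm_add_le a b
  nlinarith [sq_nonneg (‖a‖ - ‖b‖), norm_nonneg a, norm_nonneg b, norm_nonneg (a + b)]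

section
variable (n : ℤ) (ξ : ℝ) (P : Cyl → ℂ) (hP : ContDiff ℝ 1 (lft P)) (hs : HasCompactSupport P)
include hP hs

lemma grad_chr : (∫ p, ‖dX (fun q => chr n ξ q * P q) p‖ ^ 2) +
    ∫ p, ‖dY (fun q => chr n ξ q * P q) p‖ ^ 2 ≤
    2 * ((n:ℝ) ^ 2 + ξ ^ 2) * (∫ p, ‖P p‖ ^ 2) + 2 * ((∫ p, ‖dX P p‖ ^ 2) + ∫ p, ‖dY P p‖ ^ 2) := by
  have i0 := integrable_sq_norm P (cont_f P hP) hs
  have iX := integrable_sq_norm (dX P) (cont_dX P hP) (compact_dX P hs)
  have iY := integrable_sq_norm (dY P) (cont_dY P hP) (compact_dY P hs)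
  have hwl : ContDiff ℝ 1 (lft fun q => chr n ξ q * P q) := (chr_lft n ξ).mul hP
  have hws : HasCompactSupport fun q => chr n ξ q * P q := hs.mul_left
  have jX := integrable_sq_norm _ (cont_dX _ hwl) (compact_dX _ hws)
  have jY := integrable_sq_norm _ (cont_dY _ hwl) (compact_dY _ hws)
  have h1 : ∫ p, ‖dX (fun q => chr n ξ q * P q) p‖ ^ 2 ≤
      ∫ p, (2 * (n:ℝ) ^ 2 * ‖P p‖ ^ 2 + 2 * ‖dX P p‖ ^ 2) := by
    apply integral_mono jX ((i0.const_mul _).add (iX.const_mul _))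
    intro p
    show ‖dX (fun q => chr n ξ q * P q) p‖ ^ 2 ≤ 2 * (n:ℝ) ^ 2 * ‖P p‖ ^ 2 + 2 * ‖dX P p‖ ^ 2
    rw [chr_dX n ξ P hP, norm_mul, chr_norm, one_mul]
    refine (sq_norm_add _ _).trans (le_of_eq ?_)
    rw [norm_mul, norm_neg, norm_mul, Complex.norm_I, one_mul, Complex.norm_intCast, mul_pow, sq_abs]
    ring
  have h2 : ∫ p, ‖dY (fun q => chr n ξ q * P q) p‖ ^ 2 ≤
      ∫ p, (2 * ξ ^ 2 * ‖P p‖ ^ 2 + 2 * ‖dY P p‖ ^ 2) := by
    apply integral_mono jY ((i0.const_mul _).add (iY.const_mul _))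
    intro p
    show ‖dY (fun q => chr n ξ q * P q) p‖ ^ 2 ≤ 2 * ξ ^ 2 * ‖P p‖ ^ 2 + 2 * ‖dY P p‖ ^ 2
    rw [chr_dY n ξ P hP, norm_mul, chr_norm, one_mul]
    refine (sq_norm_add _ _).trans (le_of_eq ?_)
    rw [norm_mul, norm_neg, norm_mul, Complex.norm_I, one_mul, Complex.norm_real,
      Real.norm_eq_abs, mul_pow, sq_abs]
    ring
  rw [integral_add (i0.const_mul _) (iX.const_mul _), integral_const_mul, integral_const_mul] at h1
  rw [integral_add (i0.const_mul _) (iY.const_mul _), integral_const_mul, integral_const_mul] at h2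
  linarith

end

/-- the projection of a character, divided by it. -/
noncomputable def ww {k : ℕ} (K : ℝ) (u : Fin k → Cyl → ℝ) (p : ℤ × ℤ) : Cyl → ℂ :=
  fun q => chr p.1 ((p.2:ℝ) / K) q * lin u (fun j => conj (cc K u p j)) q

/-- its energy. -/
noncomputable def gg {k : ℕ} (K : ℝ) (u : Fin k → Cyl → ℝ) (p : ℤ × ℤ) : ℝ :=
  (∫ q, ‖dX (ww K u p) q‖ ^ 2) + ∫ q, ‖dY (ww K u p) q‖ ^ 2

section
variable {k : ℕ} (K : ℝ) (hK : 0 < K) (u : Fin k → Cyl → ℝ)
  (hu : ∀ i, ContDiff ℝ 1 (lft (u i))) (hs : ∀ i, HasCompactSupport (u i))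
  (ho : ∀ i j, ∫ p, u i p * u j p = if i = j then 1 else 0)
  (h0 : ∀ p : Cyl, Real.pi * K ≤ |p.2| → p ∉ sup u)
include hK hu hs ho h0

lemma ww_int (p : ℤ × ℤ) : ∫ q, ww K u p q = ((aa K u p : ℝ) : ℂ) := by
  unfold ww lin
  have e : ∀ q, chr p.1 ((p.2:ℝ) / K) q * ∑ j, conj (cc K u p j) * (u j q : ℂ) =
      ∑ j, conj (cc K u p j) * (chr p.1 ((p.2:ℝ) / K) q * (u j q : ℂ)) := by
    intro q
    rw [Finset.mul_sum]
    apply Finset.sum_congr rfl; intro j _; ring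
  simp_rw [e]
  rw [integral_finsetSum]
  · unfold aa
    rw [Complex.ofReal_sum]
    apply Finset.sum_congr rfl; intro j _
    rw [integral_const_mul]
    have h1 : ∫ q, chr p.1 ((p.2:ℝ) / K) q * (u j q : ℂ) = cc K u p j := rfl
    rw [h1, mul_comm, Complex.mul_conj, Complex.normSq_eq_norm_sq]
  · intro j _
    apply Integrable.const_mul
    apply Continuous.integrable_of_hasCompactSupport
    · exact (chr_continuous _ _).mul (cont_f _ (one_lft (u j) (hu j)))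
    · exact (one_compact (u j) (hs j)).mul_left

lemma lin_conj (p : ℤ × ℤ) : ∫ q, ‖lin u (fun j => conj (cc K u p j)) q‖ ^ 2 = aa K u p := by
  rw [lin_norm u hu hs ho]
  unfold aa
  apply Finset.sum_congr rfl; intro j _
  rw [Complex.norm_conj]

lemma ww_norm (p : ℤ × ℤ) : ∫ q, ‖ww K u p q‖ ^ 2 = aa K u p := by
  rw [← lin_conj K hK u hu hs ho h0 p]
  congr 1; ext q
  unfold ww
  rw [norm_mul, chr_norm, one_mul]

lemma ww_lft (p : ℤ × ℤ) : ContDiff ℝ 1 (lft (ww K u p)) := (chr_lft _ _).mul (lin_lft u hu _)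

lemma ww_compact (p : ℤ × ℤ) : HasCompactSupport (ww K u p) := (lin_compact u hs _).mul_left

lemma ww_ts (p : ℤ × ℤ) : tsupport (ww K u p) ⊆ sup u := by
  apply closure_minimal _ (sup_compact u hs).isClosed
  intro q hq
  by_contra h
  apply hq
  show chr p.1 ((p.2:ℝ) / K) q * lin u (fun j => conj (cc K u p j)) q = 0
  rw [lin_zero u _ q h, mul_zero]

lemma gg_nonneg (p : ℤ × ℤ) : 0 ≤ gg K u p :=
  add_nonneg (integral_nonneg (fun _ => sq_nonneg _)) (integral_nonneg (fun _ => sq_nonneg _))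

/-- the key inequality at a lattice point. -/
lemma key_at (Ω : Set Cyl) (hΩ : IsOpen Ω) (hfin : volume Ω ≠ ⊤) (hsub : sup u ⊆ Ω)
    (hV : (volume Ω).toReal ≤ 1 / 5) (p : ℤ × ℤ) :
    0 ≤ (volume Ω).toReal - aa K u p ∧
    (volume Ω).toReal ≤ ((volume Ω).toReal - aa K u p) * (2 + (3 / 5) * gg K u p) := by
  have h := key (ww K u p) (ww_lft K hK u hu hs ho h0 p) (ww_compact K hK u hu hs ho h0 p) Ω hΩ hfin
    ((ww_ts K hK u hu hs ho h0 p).trans hsub) hV
  rw [ww_int K hK u hu hs ho h0, ww_norm K hK u hu hs ho h0, Complex.ofReal_re] at h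
  have e : (volume Ω).toReal - 2 * aa K u p + aa K u p = (volume Ω).toReal - aa K u p := by ring
  rw [e] at h
  exact h

lemma int_sum_le (D : Fin k → Cyl → ℝ) (hD : ∀ i, Continuous (D i))
    (hDs : ∀ i, HasCompactSupport (D i)) (S : Finset (ℤ × ℤ)) :
    ∑ p ∈ S, ∫ q, ‖∑ j, conj (cc K u p j) * (D j q : ℂ)‖ ^ 2 ≤
      4 * Real.pi ^ 2 * K * ∑ j, ∫ q, D j q ^ 2 := by
  have hc : ∀ p : ℤ × ℤ, Integrable (fun q => ‖∑ j, conj (cc K u p j) * (D j q : ℂ)‖ ^ 2)
      (volume : Measure Cyl) := by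
    intro p
    apply Continuous.integrable_of_hasCompactSupport
    · apply Continuous.pow
      apply Continuous.norm
      apply continuous_finsetSum
      intro j _
      exact continuous_const.mul (Complex.continuous_ofReal.comp (hD j))
    · apply HasCompactSupport.of_support_subset_isCompact (K := ⋃ i, tsupport (D i))
        (isCompact_iUnion (fun i => hDs i))
      intro q hq
      by_contra h
      apply hq
      show ‖∑ j, conj (cc K u p j) * (D j q : ℂ)‖ ^ 2 = 0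
      have : ∑ j, conj (cc K u p j) * (D j q : ℂ) = 0 := by
        apply Finset.sum_eq_zero
        intro j _
        rw [image_eq_zero_of_notMem_tsupport (fun h' => h (mem_iUnion_of_mem j h'))]
        simp
      rw [this]; simp
  have hD2 : ∀ j, Integrable (fun q => D j q ^ 2) (volume : Measure Cyl) := fun j =>
    integrable_sq _ (hD j) (hDs j)
  rw [← integral_finsetSum _ (fun p _ => hc p), ← integral_finsetSum _ (fun j _ => hD2 j),
    ← integral_const_mul]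
  apply integral_mono (integrable_finsetSum _ (fun p _ => hc p))
    ((integrable_finsetSum _ (fun j _ => hD2 j)).const_mul _)
  intro q
  show ∑ p ∈ S, ‖∑ j, conj (cc K u p j) * (D j q : ℂ)‖ ^ 2 ≤
    4 * Real.pi ^ 2 * K * ∑ j, D j q ^ 2
  refine le_trans (le_of_eq ?_) (bessel K hK u hu hs ho h0 (fun j => D j q) S)
  apply Finset.sum_congr rfl; intro p _
  rw [← Complex.norm_conj]
  congr 2
  rw [map_sum]
  apply Finset.sum_congr rfl; intro j _
  rw [map_mul, Complex.conj_conj, Complex.conj_ofReal, mul_comm]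

/-- the sum of the energies. -/
lemma sum_gg (S : Finset (ℤ × ℤ)) : ∑ p ∈ S, gg K u p ≤
    16 * Real.pi ^ 2 * K * ∑ j, energy (u j) := by
  have h1 : ∀ p ∈ S, gg K u p ≤ 2 * (qq K p * aa K u p) +
      2 * ((∫ q, ‖∑ j, conj (cc K u p j) * ((dX (u j) q : ℝ) : ℂ)‖ ^ 2) +
        ∫ q, ‖∑ j, conj (cc K u p j) * ((dY (u j) q : ℝ) : ℂ)‖ ^ 2) := by
    intro p _
    have h2 := grad_chr p.1 ((p.2:ℝ) / K) (lin u (fun j => conj (cc K u p j))) (lin_lft u hu _)
      (lin_compact u hs _)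
    rw [lin_conj K hK u hu hs ho h0] at h2
    simp_rw [lin_dX u hu, lin_dY u hu] at h2
    refine h2.trans (le_of_eq ?_)
    unfold qq; ring
  refine (Finset.sum_le_sum h1).trans ?_
  rw [Finset.sum_add_distrib, ← Finset.mul_sum, ← Finset.mul_sum, Finset.sum_add_distrib]
  have h3 := sum_le_hasSum S (fun p _ => by unfold qq aa; positivity)
    (sum_qaa K hK u hu hs ho h0)
  have h4 := int_sum_le K hK u hu hs ho h0 (fun j => dX (u j)) (fun j => cont_dX _ (hu j))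
    (fun j => compact_dX _ (hs j)) S
  have h5 := int_sum_le K hK u hu hs ho h0 (fun j => dY (u j)) (fun j => cont_dY _ (hu j))
    (fun j => compact_dY _ (hs j)) S
  have h6 : ∑ j, energy (u j) = (∑ j, ∫ q, dX (u j) q ^ 2) + ∑ j, ∫ q, dY (u j) q ^ 2 := by
    rw [← Finset.sum_add_distrib]
    apply Finset.sum_congr rfl; intro j _
    unfold energy
    exact integral_add (integrable_sq _ (cont_dX _ (hu j)) (compact_dX _ (hs j)))
      (integrable_sq _ (cont_dY _ (hu j)) (compact_dY _ (hs j)))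
  have h7 : (4 * Real.pi ^ 2 * K * ∑ j, ∫ q, dX (u j) q ^ 2) +
      4 * Real.pi ^ 2 * K * ∑ j, ∫ q, dY (u j) q ^ 2 = 4 * Real.pi ^ 2 * K * ∑ j, energy (u j) := by
    rw [h6]; ring
  linarith

end

end Pool.Agent.Work.MP_33c50c_an.BLY
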