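import Mathlib
import Pool.Agent.Work.MP_33c50c_an.BLY.Wf
import Pool.Agent.Work.MP_33c50c_an.BLY.Latt
import Pool.Agent.Work.MP_33c50c_an.BLY.Arith

namespace Pool.Agent.Work.MP_33c50c_an.BLY

open MeasureTheory Set
open scoped ENNReal ContDiff

lemma qq_finite (K : ℝ) (hK : 0 < K) (ν : ℝ) : {p : ℤ × ℤ | qq K p < ν}.Finite := by
  set N : ℤ := ⌈|ν| * (1 + K ^ 2)⌉ with hN
  have hN1 : |ν| * (1 + K ^ 2) ≤ N := Int.le_ceil _
  have hint : ∀ n : ℤ, |(n:ℝ)| ≤ (n:ℝ) ^ 2 := by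
    intro n
    have h1 : |n| ≤ n ^ 2 := by
      rw [← sq_abs]
      rcases eq_or_lt_of_le (abs_nonneg n) with h | h
      · rw [← h]; norm_num
      · nlinarith
    exact_mod_cast h1
  have hν := le_abs_self ν
  have hν0 := abs_nonneg ν
  apply ((Set.finite_Icc (-N) N).prod (Set.finite_Icc (-N) N)).subset
  intro p hp
  have hp' : (p.1:ℝ) ^ 2 + ((p.2:ℝ) / K) ^ 2 < ν := hp
  have h1 : (p.1:ℝ) ^ 2 ≤ |ν| := by nlinarith [sq_nonneg ((p.2:ℝ) / K)]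
  have h2 : ((p.2:ℝ) / K) ^ 2 ≤ |ν| := by nlinarith [sq_nonneg (p.1:ℝ)]
  have h3 : (p.2:ℝ) ^ 2 ≤ |ν| * K ^ 2 := by
    rw [div_pow, div_le_iff₀ (by positivity)] at h2; exact h2
  have h4 : |(p.1:ℝ)| ≤ N := by
    refine (hint p.1).trans (h1.trans (le_trans ?_ hN1))
    nlinarith [mul_nonneg hν0 (sq_nonneg K)]
  have h5 : |(p.2:ℝ)| ≤ N := by
    refine (hint p.2).trans (h3.trans (le_trans ?_ hN1))
    nlinarith
  rw [abs_le] at h4 h5
  refine ⟨⟨?_, ?_⟩, ⟨?_, ?_⟩⟩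
  · exact_mod_cast h4.1
  · exact_mod_cast h4.2
  · exact_mod_cast h5.1
  · exact_mod_cast h5.2

theorem core (Ω : Set Cyl) (hΩ : IsOpen Ω) (hfin : volume Ω ≠ ⊤)
    (hV : (volume Ω).toReal ≤ 1 / 5) {k : ℕ} (hk : 1 ≤ k) (u : Fin k → Cyl → ℝ)
    (hu : ∀ i, ContDiff ℝ 1 (lft (u i))) (hs : ∀ i, HasCompactSupport (u i)) (hsub : sup u ⊆ Ω)
    (ho : ∀ i j, ∫ p, u i p * u j p = if i = j then 1 else 0) :
    0 < (volume Ω).toReal ∧
    2 * Real.pi * k ^ 2 + k / 100 ≤ (volume Ω).toReal * ∑ j, energy (u j) := by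
  have hpi := Real.pi_pos
  have hpi1 := Real.pi_gt_three
  obtain ⟨B, hB⟩ : ∃ B : ℝ, ∀ p ∈ sup u, |p.2| ≤ B := by
    obtain ⟨B, hB⟩ := ((sup_compact u hs).image continuous_snd).isBounded.exists_norm_le
    exact ⟨B, fun p hp => hB p.2 ⟨p, hp, rfl⟩⟩
  set Kn : ℕ := ⌈|B|⌉₊ + 10 with hKn
  set K : ℝ := (Kn : ℝ) with hKdef
  have hK10 : 10 ≤ K := by rw [hKdef, hKn]; push_cast; have := Nat.cast_nonneg (α := ℝ) ⌈|B|⌉₊; linarith
  have hK : 0 < K := by linarith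
  have hKB : |B| < K := by
    rw [hKdef, hKn]; push_cast; have := Nat.le_ceil |B|; linarith
  have h0 : ∀ p : Cyl, Real.pi * K ≤ |p.2| → p ∉ sup u := by
    intro p hp hpu
    have h1 := hB p hpu
    have h2 := le_abs_self B
    nlinarith
  set V := (volume Ω).toReal with hVdef
  set T := ∑ j, energy (u j) with hT
  have hT0 : 0 ≤ T := Finset.sum_nonneg (fun j _ =>
    integral_nonneg (fun p => add_nonneg (sq_nonneg _) (sq_nonneg _)))
  have hkey := key_at K hK u hu hs ho h0 Ω hΩ hfin hsub hV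
  have haa0 : ∀ p, 0 ≤ aa K u p := fun p => Finset.sum_nonneg (fun j _ => sq_nonneg _)
  have hsa := sum_aa K hK u hu hs ho h0
  have hsq := sum_qaa K hK u hu hs ho h0
  have hk' : (1:ℝ) ≤ k := by exact_mod_cast hk
  have hV0 : 0 < V := by
    by_contra h
    rw [not_lt] at h
    have h1 : ∀ p, aa K u p = 0 := fun p => le_antisymm (by have := (hkey p).1; linarith) (haa0 p)
    have h2 : HasSum (aa K u) 0 := by
      have : aa K u = fun _ => 0 := funext h1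
      rw [this]; exact hasSum_zero
    have h3 := hsa.unique h2
    have : 0 < 4 * Real.pi ^ 2 * K * k := by positivity
    linarith
  refine ⟨hV0, ?_⟩
  set x := 4 * Real.pi * k / V / 3 with hx
  have hVx : V * (3 * x) = 4 * Real.pi * k := by rw [hx]; field_simp
  have hx1 := xbound V k x Real.pi hV0 hV (by linarith) (by have := Real.pi_gt_d4; exact this) hVx
  have hx0 : 0 ≤ x := by linarith
  set r := ⌊Real.sqrt x⌋₊ with hr
  have hr1 : (r:ℝ) ^ 2 ≤ x := by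
    have h1 : (r:ℝ) ≤ Real.sqrt x := Nat.floor_le (Real.sqrt_nonneg x)
    calc (r:ℝ) ^ 2 ≤ Real.sqrt x ^ 2 := pow_le_pow_left₀ (Nat.cast_nonneg r) h1 2
      _ = x := Real.sq_sqrt hx0
  have hr2 : x < ((r:ℝ) + 1) ^ 2 := by
    have h1 : Real.sqrt x < (r:ℝ) + 1 := Nat.lt_floor_add_one _
    calc x = Real.sqrt x ^ 2 := (Real.sq_sqrt hx0).symm
      _ < ((r:ℝ) + 1) ^ 2 := pow_lt_pow_left₀ h1 (Real.sqrt_nonneg x) (by norm_num)
  set δ := (1 / 12 + 1 / (12 * K ^ 2)) with hδ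
  have hδ1 : δ ≤ 85 / 1000 := by
    have : 1 / (12 * K ^ 2) ≤ 1 / 1200 := by
      apply one_div_le_one_div_of_le (by norm_num); nlinarith
    rw [hδ]; linarith
  have hδ0 : 0 ≤ δ := by rw [hδ]; positivity
  set ν := 3 * x - δ with hν
  have hν2 : 2 * (r:ℝ) ^ 2 < ν := by rw [hν]; linarith
  have hν0 : 0 ≤ ν := by have : 0 ≤ (r:ℝ) ^ 2 := sq_nonneg _; linarith
  -- the inner box
  set S : Finset (ℤ × ℤ) := Finset.Icc (-(r:ℤ)) r ×ˢ Finset.Icc (-((r * Kn : ℕ) : ℤ)) ((r * Kn : ℕ) : ℤ)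
    with hS
  have hScard : (S.card : ℝ) = (2 * r + 1) * (2 * (r * K) + 1) := by
    rw [hS, Finset.card_product, Int.card_Icc, Int.card_Icc]
    have e1 : ((r:ℤ) + 1 - -(r:ℤ)).toNat = 2 * r + 1 := by omega
    have e2 : (((r * Kn : ℕ) : ℤ) + 1 - -((r * Kn : ℕ) : ℤ)).toNat = 2 * (r * Kn) + 1 := by omega
    rw [e1, e2]; push_cast; ring
  have hSq : ∀ p ∈ S, qq K p ≤ 2 * (r:ℝ) ^ 2 := by
    intro p hp
    rw [hS, Finset.mem_product, Finset.mem_Icc, Finset.mem_Icc] at hp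
    obtain ⟨⟨a1, a2⟩, ⟨a3, a4⟩⟩ := hp
    have b1 : -(r:ℝ) ≤ p.1 := by exact_mod_cast a1
    have b2 : (p.1:ℝ) ≤ r := by exact_mod_cast a2
    have b3 : -((r:ℝ) * K) ≤ p.2 := by
      have : -(((r * Kn : ℕ) : ℤ) : ℝ) ≤ ((p.2 : ℤ) : ℝ) := by exact_mod_cast a3
      rw [hKdef]; push_cast at this; linarith
    have b4 : (p.2:ℝ) ≤ r * K := by
      have : ((p.2 : ℤ) : ℝ) ≤ (((r * Kn : ℕ) : ℤ) : ℝ) := by exact_mod_cast a4
      rw [hKdef]; push_cast at this; linarith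
    have c1 : (p.1:ℝ) ^ 2 ≤ (r:ℝ) ^ 2 := sq_le_sq' b1 b2
    have c2 : ((p.2:ℝ) / K) ^ 2 ≤ (r:ℝ) ^ 2 := by
      apply sq_le_sq'
      · rw [le_div_iff₀ hK]; linarith
      · rw [div_le_iff₀ hK]; linarith
    unfold qq; linarith
  -- the ball
  set Bf := (qq_finite K hK ν).toFinset with hBf
  have hmem : ∀ p, p ∈ Bf ↔ qq K p < ν := fun p => by rw [hBf]; simp
  have hSB : S ⊆ Bf := fun p hp => (hmem p).mpr (lt_of_le_of_lt (hSq p hp) hν2)
  set D := ∑ p ∈ S, (V - aa K u p) with hD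
  have hD0 : 0 ≤ D := Finset.sum_nonneg (fun p _ => (hkey p).1)
  have hlat := lattice_sum K hK Bf ν hν0
  have hνδ : ν + (1 / 12 + 1 / (12 * K ^ 2)) = 3 * x := by rw [hν, hδ]; ring
  rw [hνδ] at hlat
  have hf : HasSum (fun p => (qq K p - ν) * aa K u p)
      (4 * Real.pi ^ 2 * K * T - ν * (4 * Real.pi ^ 2 * K * k)) := by
    have e : (fun p => (qq K p - ν) * aa K u p) = fun p => qq K p * aa K u p - ν * aa K u p := by
      funext p; ring
    rw [e]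
    exact hsq.sub (hsa.mul_left ν)
  have h1 := sum_le_hasSum Bf (fun p hp => by
    have : ¬ qq K p < ν := fun h => hp ((hmem p).mpr h)
    exact mul_nonneg (by linarith) (haa0 p)) hf
  have h2 : ∑ p ∈ Bf, (qq K p - ν) * aa K u p =
      -(V * ∑ p ∈ Bf, (ν - qq K p)) + ∑ p ∈ Bf, (ν - qq K p) * (V - aa K u p) := by
    rw [Finset.mul_sum, ← Finset.sum_neg_distrib, ← Finset.sum_add_distrib]
    apply Finset.sum_congr rfl; intro p _; ring
  have h3 : ∑ p ∈ S, (ν - qq K p) * (V - aa K u p) ≤ ∑ p ∈ Bf, (ν - qq K p) * (V - aa K u p) :=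
    Finset.sum_le_sum_of_subset_of_nonneg hSB (fun p hp _ =>
      mul_nonneg (by have := (hmem p).mp hp; linarith) (hkey p).1)
  have h4 : (ν - 2 * (r:ℝ) ^ 2) * D ≤ ∑ p ∈ S, (ν - qq K p) * (V - aa K u p) := by
    rw [hD, Finset.mul_sum]
    apply Finset.sum_le_sum
    intro p hp
    apply mul_le_mul_of_nonneg_right _ (hkey p).1
    have := hSq p hp
    linarith
  have h5 : V * ∑ p ∈ Bf, (ν - qq K p) ≤ V * (K * (Real.pi / 2) * (3 * x) ^ 2) := by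
    apply mul_le_mul_of_nonneg_left _ hV0.le
    exact hlat
  have h6 : -(V * (K * (Real.pi / 2) * (3 * x) ^ 2)) + (3 * x - δ - 2 * (r:ℝ) ^ 2) * D ≤
      4 * Real.pi ^ 2 * K * (T - (3 * x - δ) * k) := by
    have e : 4 * Real.pi ^ 2 * K * (T - (3 * x - δ) * k) =
        4 * Real.pi ^ 2 * K * T - ν * (4 * Real.pi ^ 2 * K * k) := by rw [hν]; ring
    rw [e]
    linarith
  have h7 := jens S V (fun p => V - aa K u p) (fun p => gg K u p)
    (16 * Real.pi ^ 2 * K * T) hV0.le (fun p _ => (hkey p).1)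
    (fun p _ => gg_nonneg K hK u hu hs ho h0 p) (fun p _ => (hkey p).2)
    (sum_gg K hK u hu hs ho h0 S)
  have hM : 4 * (r:ℝ) ^ 2 * K ≤ S.card := by
    rw [hScard]
    have : 0 ≤ (r:ℝ) := Nat.cast_nonneg r
    nlinarith [mul_nonneg this hK.le]
  exact fin_arith V k K T D S.card x δ Real.pi r hV0 hV hk' hK (by have := Real.pi_gt_d4; exact this)
    (by have := Real.pi_lt_d4; exact this) hδ0 hδ1 hT0 hD0 hVx hr1 hr2 hM h6 h7

end Pool.Agent.Work.MP_33c50c_an.BLY
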