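import Mathlib
import Pool.Agent.Work.MP_33c50c_an.BLY.Core

namespace Pool.Agent.Work.MP_33c50c_an.BLY

open MeasureTheory Set
open scoped ENNReal ContDiff

lemma mass_pos' {Ω : Set Cyl} {u : Cyl → ℝ} (hu : IsTest Ω u) (hne : u ≠ 0) : 0 < mass u := by
  obtain ⟨x, hx⟩ := Function.ne_iff.mp hne
  have hc := cont_f u (test_lft hu)
  apply Continuous.integral_pos_of_hasCompactSupport_nonneg_nonzero (x := x) (hc.pow 2)
  · apply HasCompactSupport.of_support_subset_isCompact hu.2.1
    intro p hp
    apply subset_tsupport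
    intro h
    apply hp
    show u p ^ 2 = 0
    rw [h]; simp
  · intro p; exact sq_nonneg (u p)
  · exact pow_ne_zero 2 hx

lemma test_prod {Ω : Set Cyl} {u v : Cyl → ℝ} (hu : IsTest Ω u) (hv : IsTest Ω v) :
    Integrable (fun p => u p * v p) (volume : Measure Cyl) :=
  ((cont_f _ (test_lft hu)).mul (cont_f _ (test_lft hv))).integrable_of_hasCompactSupport
    hu.2.1.mul_right

/-- the selection of an orthonormal family. -/
lemma select (Ω : Set Cyl) (L : ℕ → Submodule ℝ (Cyl → ℝ)) (k : ℕ)
    (hL : ∀ i < k, (∀ u ∈ L i, IsTest Ω u) ∧ Module.finrank ℝ (L i) = i + 1) :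
    ∃ u : ℕ → Cyl → ℝ, (∀ i < k, u i ∈ L i) ∧
      ∀ i < k, ∀ j < k, ∫ p, u i p * u j p = if i = j then 1 else 0 := by
  induction k with
  | zero => exact ⟨fun _ => 0, by simp, by simp⟩
  | succ k ih =>
    obtain ⟨u, hu1, hu2⟩ := ih (fun i hi => hL i (by omega))
    obtain ⟨hLk, hdim⟩ := hL k (by omega)
    have hut : ∀ i < k, IsTest Ω (u i) := fun i hi => (hL i (by omega)).1 _ (hu1 i hi)
    -- the linear map of the inner products
    let Φ : L k →ₗ[ℝ] (Fin k → ℝ) :=
      { toFun := fun v i => ∫ p, (v : Cyl → ℝ) p * u i p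
        map_add' := by
          intro v w
          ext i
          have h1 := test_prod (hLk _ v.2) (hut i i.2)
          have h2 := test_prod (hLk _ w.2) (hut i i.2)
          show ∫ p, ((v : Cyl → ℝ) + (w : Cyl → ℝ)) p * u i p =
            (∫ p, (v : Cyl → ℝ) p * u i p) + ∫ p, (w : Cyl → ℝ) p * u i p
          rw [← integral_add h1 h2]
          congr 1; ext p
          simp only [Pi.add_apply]; ring
        map_smul' := by
          intro c v
          ext i
          show ∫ p, (c • (v : Cyl → ℝ)) p * u i p = c * ∫ p, (v : Cyl → ℝ) p * u i p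
          rw [← integral_const_mul]
          congr 1; ext p
          simp only [Pi.smul_apply, smul_eq_mul]; ring }
    haveI : FiniteDimensional ℝ (L k) := Module.finite_of_finrank_pos (by omega)
    have hker := LinearMap.ker_ne_bot_of_finrank_lt (f := Φ) (by
      rw [hdim, Module.finrank_pi]; simp)
    obtain ⟨v, hv, hv0⟩ := (Submodule.ne_bot_iff _).mp hker
    have hvne : (v : Cyl → ℝ) ≠ 0 := fun h => hv0 (Subtype.ext h)
    have hvt := hLk _ v.2
    have hm := mass_pos' hvt hvne
    have hvi : ∀ i < k, ∫ p, (v : Cyl → ℝ) p * u i p = 0 := by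
      intro i hi
      have h1 : Φ v = 0 := hv
      exact congrFun h1 ⟨i, hi⟩
    set c := (Real.sqrt (mass (v : Cyl → ℝ)))⁻¹ with hc
    have hc2 : c * c * mass (v : Cyl → ℝ) = 1 := by
      rw [hc, ← mul_inv, Real.mul_self_sqrt hm.le, inv_mul_cancel₀ hm.ne']
    refine ⟨fun i => if i = k then c • (v : Cyl → ℝ) else u i, ?_, ?_⟩
    · intro i hi
      by_cases h : i = k
      · simp only [h, if_true]; exact (L k).smul_mem c v.2
      · simp only [h, if_false]; exact hu1 i (by omega)
    · intro i hi j hj
      by_cases h : i = k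
      · by_cases h' : j = k
        · simp only [h, h', if_true, Pi.smul_apply, smul_eq_mul]
          rw [← hc2]
          unfold mass
          rw [← integral_const_mul]
          congr 1; ext p; ring
        · have hjk : j < k := by omega
          have hne : k ≠ j := fun h'' => h' h''.symm
          simp only [h, h', hne, if_true, if_false, Pi.smul_apply, smul_eq_mul]
          have := hvi j hjk
          calc ∫ p, c * (v : Cyl → ℝ) p * u j p = ∫ p, c * ((v : Cyl → ℝ) p * u j p) := by
                congr 1; ext p; ring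
            _ = 0 := by rw [integral_const_mul, this, mul_zero]
      · by_cases h' : j = k
        · have hik : i < k := by omega
          simp only [h, h', if_true, if_false, Pi.smul_apply, smul_eq_mul]
          have := hvi i hik
          calc ∫ p, u i p * (c * (v : Cyl → ℝ) p) = ∫ p, c * ((v : Cyl → ℝ) p * u i p) := by
                congr 1; ext p; ring
            _ = 0 := by rw [integral_const_mul, this, mul_zero]
        · simp only [h, h', if_false]
          exact hu2 i (by omega) j (by omega)

/-- The Berezin-Li-Yau inequality, with a second term, for small open sets of the cylinder. -/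
theorem main (Ω : Set Cyl) (hΩ : IsOpen Ω) (hvol : volume Ω ≤ ENNReal.ofReal (1 / 5)) (k : ℕ)
    (hk : 1 ≤ k) : ENNReal.ofReal (2 * Real.pi * k ^ 2 + k / 100) / volume Ω ≤
      ∑ j ∈ Finset.Icc 1 k, eigenvalue Ω j := by
  have hfin : volume Ω ≠ ⊤ := ne_top_of_le_ne_top ENNReal.ofReal_ne_top hvol
  have hV : (volume Ω).toReal ≤ 1 / 5 := ENNReal.toReal_le_of_le_ofReal (by norm_num) hvol
  by_cases htop : ∃ j ∈ Finset.Icc 1 k, eigenvalue Ω j = ⊤
  · rw [ENNReal.sum_eq_top.mpr htop]; exact le_top
  push Not at htop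
  set e : ℕ → ℝ := fun j => (eigenvalue Ω j).toReal with he
  -- for every `ε`
  have hε : ∀ ε : ℝ, 0 < ε → 0 < (volume Ω).toReal ∧
      2 * Real.pi * k ^ 2 + k / 100 ≤
        (volume Ω).toReal * ((∑ j ∈ Finset.Icc 1 k, e j) + k * ε) := by
    intro ε hε
    have h1 : ∀ i : ℕ, ∃ L : Submodule ℝ (Cyl → ℝ), i < k →
        ((∀ u ∈ L, IsTest Ω u) ∧ Module.finrank ℝ L = i + 1) ∧
        ∀ u ∈ L, energy u ≤ (e (i + 1) + ε) * mass u := by
      intro i
      by_cases hi : i < k
      · have hne := htop (i + 1) (Finset.mem_Icc.mpr ⟨by omega, by omega⟩)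
        have h2 : eigenvalue Ω (i + 1) < ENNReal.ofReal (e (i + 1) + ε) := by
          rw [ENNReal.lt_ofReal_iff_toReal_lt hne]
          show e (i + 1) < e (i + 1) + ε
          linarith
        have he0 : 0 ≤ e (i + 1) := ENNReal.toReal_nonneg
        unfold eigenvalue at h2
        rw [iInf_lt_iff] at h2
        obtain ⟨L, h2⟩ := h2
        rw [iInf_lt_iff] at h2
        obtain ⟨⟨hL, hLk⟩, h2⟩ := h2
        refine ⟨L, fun _ => ⟨⟨hL, hLk⟩, ?_⟩⟩
        intro u hu
        by_cases h0 : u = 0
        · rw [h0]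
          have : energy (0 : Cyl → ℝ) = 0 := by unfold energy dX dY; simp
          rw [this]
          have : mass (0 : Cyl → ℝ) = 0 := by unfold mass; simp
          rw [this, mul_zero]
        · have hm := mass_pos' (hL u hu) h0
          have h3 := le_iSup₂ (f := fun (u : Cyl → ℝ) (_ : u ∈ L ∧ u ≠ 0) =>
            ENNReal.ofReal (energy u / mass u)) u ⟨hu, h0⟩
          have h4 : ENNReal.ofReal (energy u / mass u) < ENNReal.ofReal (e (i + 1) + ε) :=
            lt_of_le_of_lt h3 h2
          rw [ENNReal.ofReal_lt_ofReal_iff (by linarith), div_lt_iff₀ hm] at h4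
          exact h4.le
      · exact ⟨⊥, fun h => absurd h hi⟩
    choose L hL using h1
    obtain ⟨u, hu1, hu2⟩ := select Ω L k (fun i hi => (hL i hi).1)
    have hut : ∀ i : Fin k, IsTest Ω (u i) := fun i => (hL i i.2).1.1 _ (hu1 i i.2)
    have hc := core Ω hΩ hfin hV hk (fun i : Fin k => u i) (fun i => test_lft (hut i))
      (fun i => (hut i).2.1) (by
        intro p hp
        obtain ⟨i, hi⟩ := mem_iUnion.mp hp
        exact (hut i).2.2 hi) (by
        intro i j
        rw [hu2 i i.2 j j.2]
        by_cases h : i = j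
        · rw [h]; simp
        · have : (i : ℕ) ≠ j := fun h' => h (Fin.ext h')
          simp [h, this])
    refine ⟨hc.1, hc.2.trans ?_⟩
    apply mul_le_mul_of_nonneg_left _ hc.1.le
    have h5 : ∀ i : Fin k, energy (u i) ≤ e (i + 1) + ε := by
      intro i
      have h6 := (hL i i.2).2 _ (hu1 i i.2)
      have h7 : mass (u i) = 1 := by
        have := hu2 i i.2 i i.2
        simp only [if_true] at this
        rw [← this]
        unfold mass
        congr 1; ext p; ring
      rw [h7, mul_one] at h6
      exact h6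
    calc ∑ i : Fin k, energy (u i) ≤ ∑ i : Fin k, (e (i + 1) + ε) := Finset.sum_le_sum (fun i _ => h5 i)
      _ = (∑ i : Fin k, e (i + 1)) + k * ε := by
          rw [Finset.sum_add_distrib, Finset.sum_const, Finset.card_univ, Fintype.card_fin,
            nsmul_eq_mul]
      _ = (∑ j ∈ Finset.Icc 1 k, e j) + k * ε := by
          congr 1
          rw [Fin.sum_univ_eq_sum_range (fun i => e (i + 1)) k]
          rw [Finset.range_eq_Ico, Finset.sum_Ico_add' e 0 k 1]
          apply Finset.sum_congr _ (fun _ _ => rfl)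
          ext j; simp
  have hV0 := (hε 1 one_pos).1
  have hfinal : 2 * Real.pi * k ^ 2 + k / 100 ≤
      (volume Ω).toReal * ∑ j ∈ Finset.Icc 1 k, e j := by
    apply le_of_forall_pos_le_add
    intro η hη
    have hk0 : (0:ℝ) < k := by exact_mod_cast hk
    have h8 := (hε (η / ((volume Ω).toReal * k)) (by positivity)).2
    refine h8.trans (le_of_eq ?_)
    field_simp
  have hsum : ∑ j ∈ Finset.Icc 1 k, eigenvalue Ω j =
      ENNReal.ofReal (∑ j ∈ Finset.Icc 1 k, e j) := by
    rw [ENNReal.ofReal_sum_of_nonneg (fun j _ => ENNReal.toReal_nonneg)]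
    apply Finset.sum_congr rfl
    intro j hj
    exact (ENNReal.ofReal_toReal (htop j hj)).symm
  have hvolne : volume Ω ≠ 0 := by
    intro h; rw [h] at hV0; simp at hV0
  rw [hsum, ENNReal.div_le_iff hvolne hfin]
  conv_rhs => rw [← ENNReal.ofReal_toReal hfin]
  rw [← ENNReal.ofReal_mul (Finset.sum_nonneg (fun j _ => ENNReal.toReal_nonneg))]
  apply ENNReal.ofReal_le_ofReal
  exact hfinal.trans (le_of_eq (mul_comm _ _))

end Pool.Agent.Work.MP_33c50c_an.BLY
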